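import Pool.Agent.Helper155_ST.Defs

/-!
# Well-ordered sets of successor cardinality, ideals and the normalisation of a saturated ideal
-/

set_option autoImplicit false

namespace Pool.Agent.Helper155_ST

open Cardinal Set

/-- `X` is well ordered, has cardinality `ν⁺`, and its proper initial segments have cardinality at
most `ν`: it is a copy of the cardinal `ν⁺`. -/
structure SuccType (ν : Cardinal.{0}) (X : Type) [LinearOrder X] : Prop where
  inf : ℵ₀ ≤ ν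
  wf : WellFoundedLT X
  card : #X = Order.succ ν
  small : ∀ x : X, #(Set.Iio x) ≤ ν

namespace SuccType

variable {ν : Cardinal.{0}} {X : Type} [LinearOrder X]

theorem smallIic (h : SuccType ν X) (x : X) : #(Set.Iic x) ≤ ν := by
  have h1 : Set.Iic x ⊆ Set.Iio x ∪ {x} := by
    intro y hy
    rcases lt_or_eq_of_le hy with h | h
    · exact Or.inl h
    · exact Or.inr h
  refine (mk_le_mk_of_subset h1).trans ((mk_union_le _ _).trans ?_)
  rw [mk_singleton]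
  exact add_le_of_le h.inf (h.small x) (one_le_aleph0.trans h.inf)

theorem bdd (h : SuccType ν X) (S : Set X) (hS : #S ≤ ν) : ∃ b, ∀ s ∈ S, s < b := by
  by_contra hcon
  push Not at hcon
  have h1 : (Set.univ : Set X) ⊆ ⋃ s : S, Set.Iic s.1 := by
    intro b _
    obtain ⟨s, hs, hb⟩ := hcon b
    exact Set.mem_iUnion.2 ⟨⟨s, hs⟩, hb⟩
  have h2 : #X ≤ ν := by
    rw [← mk_univ]
    refine (mk_le_mk_of_subset h1).trans ((mk_iUnion_le _).trans ?_)
    have h3 : ⨆ s : S, #(Set.Iic s.1) ≤ ν := ciSup_le' fun s => h.smallIic s.1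
    exact (mul_le_mul' hS h3).trans (mul_eq_self h.inf).le
  rw [h.card] at h2
  exact absurd h2 (not_le.2 (Order.lt_succ ν))

theorem bdd_range (h : SuccType ν X) {ι : Type} (f : ι → X) (hι : #ι ≤ ν) :
    ∃ b, ∀ i, f i < b := by
  obtain ⟨b, hb⟩ := h.bdd (Set.range f) (mk_range_le.trans hι)
  exact ⟨b, fun i => hb _ ⟨i, rfl⟩⟩

theorem exists_gt (h : SuccType ν X) (x : X) : ∃ y, x < y := by
  obtain ⟨b, hb⟩ := h.bdd {x} (by rw [mk_singleton]; exact one_le_aleph0.trans h.inf)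
  exact ⟨b, hb x rfl⟩

theorem nonempty (h : SuccType ν X) : Nonempty X := by
  rw [← mk_ne_zero_iff, h.card]
  exact (Order.bot_lt_succ ν).ne'

/-- closing off under a function -/
theorem exists_closed (h : SuccType ν X) (φ : X → X) (x : X) :
    ∃ ξ, x < ξ ∧ ∀ ζ < ξ, φ ζ < ξ := by
  have := h.wf
  have hB : ∀ a : X, ∃ b, a < b ∧ ∀ ζ ≤ a, φ ζ < b := by
    intro a
    obtain ⟨b, hb⟩ := h.bdd (φ '' Set.Iic a) (mk_image_le.trans (h.smallIic a))
    obtain ⟨c, hc⟩ := h.exists_gt (max a b)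
    exact ⟨c, (le_max_left a b).trans_lt hc, fun ζ hζ =>
      (hb _ ⟨ζ, hζ, rfl⟩).trans ((le_max_right a b).trans_lt hc)⟩
  choose B hB1 hB2 using hB
  let a : ℕ → X := fun n => Nat.rec x (fun _ b => B b) n
  have has : ∀ n, a (n + 1) = B (a n) := fun n => rfl
  obtain ⟨β, hβ⟩ := h.bdd_range a (mk_nat.le.trans h.inf)
  have hne : {γ : X | ∀ n, a n < γ}.Nonempty := ⟨β, hβ⟩
  refine ⟨h.wf.wf.min _ hne, (h.wf.wf.min_mem _ hne) 0, fun ζ hζ => ?_⟩
  have h3 : ∃ n, ζ ≤ a n := by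
    by_contra hcon
    push Not at hcon
    exact h.wf.wf.not_lt_min (s := {γ : X | ∀ n, a n < γ}) hcon hζ
  obtain ⟨n, hn⟩ := h3
  have h4 := hB2 (a n) ζ hn
  rw [← has] at h4
  exact h4.trans ((h.wf.wf.min_mem _ hne) (n + 1))

end SuccType

/-- the points closed under a function -/
def Cl {X : Type} [LinearOrder X] (φ : X → X) : Set X :=
  {ξ | (∃ ζ, ζ < ξ) ∧ ∀ ζ < ξ, φ ζ < ξ}

namespace IsIdeal

variable {ν : Cardinal.{0}} {Y : Type} {I : Set (Set Y)}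

theorem iUnion (h : IsIdeal (Order.succ ν) I) {ι : Type} (A : ι → Set Y) (hι : #ι ≤ ν)
    (hA : ∀ i, A i ∈ I) : (⋃ i, A i) ∈ I := by
  rw [← Set.sUnion_range]
  refine h.complete _ (Order.lt_succ_iff.2 (mk_range_le.trans hι)) ?_
  rintro _ ⟨i, rfl⟩
  exact hA i

theorem mono (h : IsIdeal (Order.succ ν) I) {P Q : Y → Prop} (hPQ : ∀ y, P y → Q y)
    (hQ : {y | Q y} ∈ I) : {y | P y} ∈ I := h.down _ _ (fun y hy => hPQ y hy) hQ

theorem empty (h : IsIdeal (Order.succ ν) I) : ∅ ∈ I := by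
  have h1 := h.complete ∅ (by rw [Cardinal.mk_eq_zero]; exact Order.bot_lt_succ ν) (by simp)
  simpa using h1

theorem ofCard (h : IsIdeal (Order.succ ν) I) (A : Set Y) (hA : #A ≤ ν) : A ∈ I := by
  have h1 := h.iUnion (fun a : A => ({a.1} : Set Y)) hA fun a => h.single a.1
  exact h.down _ _ (fun a ha => Set.mem_iUnion.2 ⟨⟨a, ha⟩, rfl⟩) h1

theorem union (h : IsIdeal (Order.succ ν) I) (hν : ℵ₀ ≤ ν) {A B : Set Y} (hA : A ∈ I)
    (hB : B ∈ I) : A ∪ B ∈ I := by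
  have h1 := h.iUnion (fun b : Bool => bif b then A else B)
    ((Cardinal.mk_le_aleph0 (α := Bool)).trans hν) (by rintro (_ | _) <;> simpa)
  refine h.down _ _ ?_ h1
  rintro x (hx | hx)
  · exact Set.mem_iUnion.2 ⟨true, hx⟩
  · exact Set.mem_iUnion.2 ⟨false, hx⟩

theorem nonempty_of (h : IsIdeal (Order.succ ν) I) {A : Set Y} (hA : A ∉ I) : A.Nonempty := by
  rcases A.eq_empty_or_nonempty with h1 | h1
  · rw [h1] at hA
    exact absurd h.empty hA
  · exact h1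

theorem exists_pos (h : IsIdeal (Order.succ ν) I) {ι : Type} {S : Set Y} (A : ι → Set Y)
    (hι : #ι ≤ ν) (hS : S ∉ I) (hA : S ⊆ ⋃ i, A i) : ∃ i, A i ∉ I := by
  by_contra hcon
  push Not at hcon
  exact hS (h.down _ _ hA (h.iUnion A hι hcon))

end IsIdeal

section Norm

variable {ν : Cardinal.{0}} {Y X : Type} [LinearOrder X]

/-- `p` is unbounded on `A` modulo `I` -/
def Unb (I : Set (Set Y)) (A : Set Y) (p : Y → X) : Prop := ∀ a : X, {y ∈ A | p y ≤ a} ∈ I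

theorem Unb.mono {I : Set (Set Y)} (hI : IsIdeal (Order.succ ν) I) {A B : Set Y} {p : Y → X}
    (h : Unb I A p) (hB : B ⊆ A) : Unb I B p :=
  fun a => hI.mono (fun _ hy => ⟨hB hy.1, hy.2⟩) (h a)

/-- the positive sets on which there is a smaller unbounded function -/
def Goods (I : Set (Set Y)) (p : Y → X) : Set (Set Y) :=
  {B | B ∉ I ∧ ∃ q : Y → X, (∀ y ∈ B, q y < p y) ∧ Unb I B q}

theorem exists_max (I : Set (Set Y)) (G : Set (Set Y)) :
    ∃ F ⊆ G, (∀ A ∈ F, ∀ B ∈ F, A ≠ B → A ∩ B ∈ I) ∧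
      ∀ B ∈ G, (∀ A ∈ F, A ∩ B ∈ I) → B ∈ F := by
  let P : Set (Set (Set Y)) := {F | F ⊆ G ∧ ∀ A ∈ F, ∀ B ∈ F, A ≠ B → A ∩ B ∈ I}
  have hz : ∃ m, Maximal (fun x => x ∈ P) m := by
    refine zorn_subset P fun c hc hchain =>
      ⟨⋃₀ c, (⟨?_, ?_⟩ : _ ∧ _), fun s hs => Set.subset_sUnion_of_mem hs⟩
    · exact Set.sUnion_subset fun s hs => (hc hs).1
    · rintro A ⟨s, hs, hA⟩ B ⟨t, ht, hB⟩ hAB
      rcases hchain.total hs ht with h | h
      · exact (hc ht).2 A (h hA) B hB hAB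
      · exact (hc hs).2 A hA B (h hB) hAB
  obtain ⟨F, hF⟩ := hz
  refine ⟨F, hF.prop.1, hF.prop.2, fun B hB hcomp => ?_⟩
  by_contra hBF
  have h1 : insert B F ∈ P := by
    refine ⟨Set.insert_subset hB hF.prop.1, ?_⟩
    rintro A (rfl | hA) C (rfl | hC) hAC
    · exact absurd rfl hAC
    · rw [Set.inter_comm]
      exact hcomp C hC
    · exact hcomp A hA
    · exact hF.prop.2 A hA C hC hAC
  exact hBF (hF.le_of_ge h1 (Set.subset_insert B F) (Set.mem_insert B F))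

theorem step (hX : SuccType ν X) {I : Set (Set Y)} (hI : IsIdeal (Order.succ ν) I)
    (hs : Saturated (Order.succ ν) I)
    (H : ∀ A, A ∉ I → ∀ p : Y → X, Unb I A p → ∃ B ⊆ A, B ∈ Goods I p)
    (p : Y → X) (hp : Unb I Set.univ p) :
    ∃ p' : Y → X, Unb I Set.univ p' ∧ {y | ¬ p' y < p y} ∈ I := by
  classical
  have := hX.wf
  obtain ⟨F, hFG, hF1, hF2⟩ := exists_max I (Goods I p)
  have hFc : #F ≤ #X := by
    rw [hX.card]
    exact hs F (fun A hA => (hFG hA).1) hF1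
  obtain ⟨idx⟩ := hFc
  have hq : ∀ B : F, ∃ q : Y → X, (∀ y ∈ B.1, q y < p y) ∧ Unb I B.1 q := fun B => (hFG B.2).2
  choose q hq1 hq2 using hq
  have hmin : ∀ y, (∃ B : F, y ∈ B.1) → ∃ B : F, y ∈ B.1 ∧ ∀ B' : F, y ∈ B'.1 → idx B ≤ idx B' := by
    intro y hy
    have hne : {x : X | ∃ B : F, y ∈ B.1 ∧ idx B = x}.Nonempty := by
      obtain ⟨B, hB⟩ := hy
      exact ⟨idx B, B, hB, rfl⟩
    obtain ⟨B, hB, hB'⟩ := hX.wf.wf.min_mem _ hne
    refine ⟨B, hB, fun B' hB'' => ?_⟩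
    rw [hB']
    exact le_of_not_gt (hX.wf.wf.not_lt_min (s := {x : X | ∃ B : F, y ∈ B.1 ∧ idx B = x})
      ⟨B', hB'', rfl⟩)
  choose! c hc1 hc2 using fun y : {y : Y // ∃ B : F, y ∈ B.1} => hmin y.1 y.2
  let p' : Y → X := fun y => if h : ∃ B : F, y ∈ B.1 then q (c ⟨y, h⟩) y else p y
  have hp' : ∀ y (h : ∃ B : F, y ∈ B.1), p' y = q (c ⟨y, h⟩) y := fun y h => dif_pos h
  refine ⟨p', ?_, ?_⟩
  · intro a
    by_contra hG
    set G : Set Y := {y | y ∈ Set.univ ∧ p' y ≤ a} with hGdef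
    have hGB : ∀ B : F, B.1 ∩ G ∈ I := by
      intro B
      have h1 : B.1 ∩ G ⊆ {y ∈ B.1 | q B y ≤ a} ∪
          ⋃ x : Set.Iio (idx B), {y | ∃ B' : F, idx B' = x.1 ∧ y ∈ B'.1 ∩ B.1} := by
        rintro y ⟨hyB, _, hya⟩
        have hex : ∃ B : F, y ∈ B.1 := ⟨B, hyB⟩
        rcases eq_or_lt_of_le (hc2 ⟨y, hex⟩ B hyB) with h2 | h2
        · left
          have h3 : c ⟨y, hex⟩ = B := idx.injective h2
          rw [hp' y hex, h3] at hya
          exact ⟨hyB, hya⟩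
        · right
          exact Set.mem_iUnion.2 ⟨⟨_, h2⟩, c ⟨y, hex⟩, rfl, hc1 ⟨y, hex⟩, hyB⟩
      refine hI.down _ _ h1 (hI.union hX.inf (hq2 B a) ?_)
      refine hI.iUnion _ (hX.small _) ?_
      rintro ⟨x, hx⟩
      by_cases hB' : ∃ B' : F, idx B' = x
      · obtain ⟨B', hB'⟩ := hB'
        have hne : B'.1 ≠ B.1 := by
          intro he
          rw [Subtype.ext he] at hB'
          exact absurd hx (by rw [hB']; exact lt_irrefl x)
        refine hI.down _ _ ?_ (hF1 B'.1 B'.2 B.1 B.2 hne)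
        rintro y ⟨B'', hB'', hy⟩
        have : B'' = B' := idx.injective (by rw [hB', hB''])
        rw [this] at hy
        exact hy
      · convert hI.empty
        refine Set.eq_empty_of_forall_notMem ?_
        rintro y ⟨B', hB'', _⟩
        exact hB' ⟨B', hB''⟩
    obtain ⟨B, hBG, hB⟩ := H G hG p (hp.mono hI (Set.subset_univ G))
    have hBF : B ∈ F := hF2 B hB fun A hA => hI.down _ _
      (Set.inter_subset_inter_right A hBG) (hGB ⟨A, hA⟩)
    refine hB.1 (hI.down _ _ ?_ (hGB ⟨B, hBF⟩))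
    exact fun y hy => ⟨hy, hBG hy⟩
  · have hN : (⋃₀ F)ᶜ ∈ I := by
      by_contra hN
      obtain ⟨B, hBN, hB⟩ := H _ hN p (hp.mono hI (Set.subset_univ _))
      have hdis : ∀ A ∈ F, A ∩ B = ∅ := by
        intro A hA
        ext y
        simp only [Set.mem_inter_iff, Set.mem_empty_iff_false, iff_false]
        rintro ⟨hy1, hy2⟩
        exact hBN hy2 ⟨A, hA, hy1⟩
      have hBF : B ∈ F := hF2 B hB fun A hA => by rw [hdis A hA]; exact hI.empty
      obtain ⟨y, hy⟩ := hI.nonempty_of hB.1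
      exact hBN hy ⟨B, hBF, hy⟩
    refine hI.down _ _ ?_ hN
    intro y hy hy'
    obtain ⟨A, hA, hyA⟩ := hy'
    have hex : ∃ B : F, y ∈ B.1 := ⟨⟨A, hA⟩, hyA⟩
    refine hy ?_
    rw [hp' y hex]
    exact hq1 _ y (hc1 ⟨y, hex⟩)

/-- There is an unbounded function which is minimal on a positive set. -/
theorem exists_minimal (hX : SuccType ν X) {I : Set (Set Y)} (hI : IsIdeal (Order.succ ν) I)
    (hs : Saturated (Order.succ ν) I) (p0 : Y → X) (hp0 : Unb I Set.univ p0) :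
    ∃ A, A ∉ I ∧ ∃ p : Y → X, Unb I A p ∧ ∀ B ⊆ A, B ∉ I → ∀ q : Y → X,
      (∀ y ∈ B, q y < p y) → ∃ a, {y ∈ B | q y ≤ a} ∉ I := by
  by_contra hcon
  push Not at hcon
  have H : ∀ A, A ∉ I → ∀ p : Y → X, Unb I A p → ∃ B ⊆ A, B ∈ Goods I p := by
    intro A hA p hp
    obtain ⟨B, hBA, hB, q, hq1, hq2⟩ := hcon A hA p hp
    exact ⟨B, hBA, hB, q, hq1, hq2⟩
  choose f hf1 hf2 using step hX hI hs H
  let P : ℕ → {p : Y → X // Unb I Set.univ p} := fun n =>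
    Nat.rec ⟨p0, hp0⟩ (fun _ p => ⟨f p.1 p.2, hf1 p.1 p.2⟩) n
  have hPs : ∀ n, {y | ¬ (P (n + 1)).1 y < (P n).1 y} ∈ I := fun n => hf2 (P n).1 (P n).2
  have h1 := hI.iUnion (fun n => {y | ¬ (P (n + 1)).1 y < (P n).1 y}) (mk_nat.le.trans hX.inf) hPs
  have h2 : ∃ y, y ∉ ⋃ n, {y | ¬ (P (n + 1)).1 y < (P n).1 y} := by
    by_contra h
    have h' := not_exists.1 h
    simp only [not_not] at h'
    exact hI.proper (hI.down _ _ (fun y _ => h' y) h1)
  obtain ⟨y, hy⟩ := h2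
  have h3 : ∀ n, (P (n + 1)).1 y < (P n).1 y := by
    intro n
    by_contra h
    exact hy (Set.mem_iUnion.2 ⟨n, h⟩)
  exact (RelEmbedding.natGT (fun n => (P n).1 y) h3).not_wellFounded hX.wf.wf

end Norm

/-- From a saturated ideal we get one which contains the complements of all closed unbounded
sets. -/
theorem exists_normal {ν : Cardinal.{0}} {X : Type} [LinearOrder X] (hX : SuccType ν X)
    {I : Set (Set X)} (hI : IsIdeal (Order.succ ν) I) (hs : Saturated (Order.succ ν) I) :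
    ∃ J : Set (Set X), IsIdeal (Order.succ ν) J ∧ Saturated (Order.succ ν) J ∧
      ∀ φ : X → X, (Cl φ)ᶜ ∈ J := by
  have hid : Unb I Set.univ (id : X → X) := by
    intro a
    refine hI.ofCard _ ((mk_le_mk_of_subset ?_).trans (hX.smallIic a))
    exact fun y hy => hy.2
  obtain ⟨E, hE, p, hp, hmin⟩ := exists_minimal hX hI hs id hid
  refine ⟨{A | {y ∈ E | p y ∈ A} ∈ I}, ⟨?_, ?_, ?_, ?_⟩, ?_, ?_⟩
  · intro h
    exact hE (hI.down _ _ (fun y hy => (⟨hy, Set.mem_univ _⟩ : _ ∧ _)) h)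
  · intro A B hAB hB
    exact hI.mono (fun y hy => ⟨hy.1, hAB hy.2⟩) hB
  · intro F hF hFI
    have h1 := hI.iUnion (fun A : F => {y ∈ E | p y ∈ A.1}) (Order.lt_succ_iff.1 hF)
      fun A => hFI A.1 A.2
    refine hI.down _ _ ?_ h1
    rintro y ⟨hy, A, hA, hyA⟩
    exact Set.mem_iUnion.2 ⟨⟨A, hA⟩, hy, hyA⟩
  · intro x
    refine hI.down _ _ ?_ (hp x)
    rintro y ⟨hy, hyx⟩
    exact ⟨hy, le_of_eq hyx⟩
  · intro F hF1 hF2
    have hinj : Function.Injective (fun A : F => {y ∈ E | p y ∈ A.1}) := by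
      intro A B hAB
      by_contra hne
      have h1 := hF2 A.1 A.2 B.1 B.2 fun h => hne (Subtype.ext h)
      refine hF1 A.1 A.2 (hI.down _ _ ?_ h1)
      intro y hy
      have h2 : y ∈ {y ∈ E | p y ∈ B.1} := by
        have h3 : y ∈ {y ∈ E | p y ∈ A.1} := hy
        have h4 : {y ∈ E | p y ∈ A.1} = {y ∈ E | p y ∈ B.1} := hAB
        rwa [h4] at h3
      exact ⟨hy.1, hy.2, h2.2⟩
    rw [← mk_range_eq _ hinj]
    refine hs _ ?_ ?_
    · rintro _ ⟨A, rfl⟩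
      exact hF1 A.1 A.2
    · rintro _ ⟨A, rfl⟩ _ ⟨B, rfl⟩ hne
      have h1 := hF2 A.1 A.2 B.1 B.2 fun h => hne (by rw [Subtype.ext h])
      refine hI.down _ _ ?_ h1
      rintro y ⟨⟨hy, hyA⟩, ⟨_, hyB⟩⟩
      exact ⟨hy, hyA, hyB⟩
  · intro φ
    change {y ∈ E | p y ∈ (Cl φ)ᶜ} ∈ I
    by_contra hcon
    obtain ⟨x0⟩ := hX.nonempty
    have := hX.wf
    -- the part where `p y` is not the least element
    have hpos : {y ∈ E | (∃ ζ, ζ < p y ∧ p y ≤ φ ζ)} ∉ I := by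
      intro h
      refine hcon (hI.down _ _ ?_ (hI.union hX.inf h (hp x0)))
      rintro y ⟨hy, hyC⟩
      by_cases h0 : p y ≤ x0
      · exact Or.inr ⟨hy, h0⟩
      · left
        refine ⟨hy, ?_⟩
        by_contra h2
        push Not at h2
        exact hyC ⟨⟨x0, lt_of_not_ge h0⟩, h2⟩
    have hq : ∀ y, ∃ ζ, (∃ ζ, ζ < p y ∧ p y ≤ φ ζ) → ζ < p y ∧ p y ≤ φ ζ := by
      intro y
      by_cases h : ∃ ζ, ζ < p y ∧ p y ≤ φ ζ
      · obtain ⟨ζ, hζ⟩ := h
        exact ⟨ζ, fun _ => hζ⟩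
      · exact ⟨x0, fun h' => absurd h' h⟩
    choose q hq using hq
    obtain ⟨a, ha⟩ := hmin _ (fun y hy => hy.1) hpos q fun y hy => (hq y hy.2).1
    obtain ⟨b, hb⟩ := hX.bdd (φ '' Set.Iic a) (mk_image_le.trans (hX.smallIic a))
    refine ha (hI.down _ _ ?_ (hp b))
    rintro y ⟨⟨hy, hy2⟩, hya⟩
    exact ⟨hy, (hq y hy2).2.trans (hb _ ⟨q y, hya, rfl⟩).le⟩

end Pool.Agent.Helper155_ST
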