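import Pool.Agent.Helper155_ST.Basic

/-!
# Canonical functions are unbounded modulo a saturated ideal, and the cofinality lemma
-/

set_option autoImplicit false

namespace Pool.Agent.Helper155_ST

open Cardinal Set

section

variable {Ω : Type} [LinearOrder Ω] [WellFoundedLT Ω]

/-- the order type of a set -/
noncomputable def ot (S : Set Ω) : Ordinal.{0} := Ordinal.type ((· < ·) : S → S → Prop)

theorem ot_lt {S T : Set Ω} {b : Ω} (hb : b ∈ T) (h : ∀ a, a ∈ S ↔ a ∈ T ∧ a < b) :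
    ot S < ot T := by
  refine Ordinal.type_lt_iff.2 ⟨⟨⟨⟨fun a => ⟨a.1, ((h a.1).1 a.2).1⟩, ?_⟩, ?_⟩, ⟨b, hb⟩, ?_⟩⟩
  · intro x y hxy
    exact Subtype.ext (congrArg (fun z : T => z.1) hxy)
  · intro x y
    exact Iff.rfl
  · intro x
    constructor
    · rintro ⟨a, rfl⟩
      exact ((h a.1).1 a.2).2
    · intro hx
      exact ⟨⟨x.1, (h x.1).2 ⟨x.2, hx⟩⟩, rfl⟩

theorem card_ot (S : Set Ω) : (ot S).card = #S := Ordinal.card_type _

end

section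

variable {ν : Cardinal.{0}} {X : Type}

theorem exists_code (V : Type) (hV : #V = ν) [Nonempty V] (τ : Ordinal.{0}) (hτ : τ.card ≤ ν) :
    ∃ k : Ordinal.{0} → V, Set.InjOn k (Set.Iio τ) := by
  classical
  have h1 : Nonempty (Set.Iio τ ↪ V) := by
    rw [← Cardinal.lift_mk_le', Cardinal.mk_Iio_ordinal, hV]
    rw [Cardinal.lift_id'.{0, 1}]
    exact Cardinal.lift_le.2 hτ
  obtain ⟨e⟩ := h1
  refine ⟨fun a => if h : a < τ then e ⟨a, h⟩ else Classical.arbitrary V, ?_⟩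
  intro a ha b hb hab
  have ha' : a < τ := ha
  have hb' : b < τ := hb
  simp only [ha', hb'] at hab
  exact congrArg (fun z : Set.Iio τ => z.1) (e.injective hab)

/-- There are no `ν⁺⁺` functions with few values which are pairwise different modulo a saturated
ideal. -/
theorem few_values (hν : ℵ₀ ≤ ν) {J : Set (Set X)} (hJ : IsIdeal (Order.succ ν) J)
    (hs : Saturated (Order.succ ν) J) {Γ : Type} (hΓ : Order.succ ν < #Γ) (A : Γ → Set X)
    (hA : ∀ g, A g ∉ J) (val : Γ → X → Ordinal.{0}) (τ : X → Ordinal.{0})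
    (hτ : ∀ ξ, (τ ξ).card ≤ ν) (h1 : ∀ g, ∀ ξ ∈ A g, val g ξ < τ ξ)
    (h2 : ∀ g g', g ≠ g' → {ξ | ξ ∈ A g ∧ ξ ∈ A g' ∧ val g ξ = val g' ξ} ∈ J) : False := by
  let V : Type := ν.ord.ToType
  have hV : #V = ν := mk_ord_toType ν
  have : Nonempty V := by
    rw [← mk_ne_zero_iff, hV]
    exact (aleph0_pos.trans_le hν).ne'
  choose k hk using fun ξ => exists_code V hV (τ ξ) (hτ ξ)
  have hv : ∀ g, ∃ v : V, {ξ | ξ ∈ A g ∧ k ξ (val g ξ) = v} ∉ J := by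
    intro g
    refine hJ.exists_pos _ hV.le (hA g) ?_
    intro ξ hξ
    exact Set.mem_iUnion.2 ⟨_, (⟨hξ, rfl⟩ : _ ∧ _)⟩
  choose v hv using hv
  have hreg : (Order.succ (Order.succ ν)).IsRegular := isRegular_succ (hν.trans (Order.le_succ ν))
  obtain ⟨w, hw⟩ := infinite_pigeonhole_card v (Order.succ (Order.succ ν))
    (Order.succ_le_of_lt hΓ) (hν.trans ((Order.le_succ ν).trans (Order.le_succ _))) (by
      rw [hreg.cof_ord, hV]
      exact (Order.lt_succ ν).trans (Order.lt_succ _))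
  let G : (v ⁻¹' {w} : Set Γ) → Set X := fun g => {ξ | ξ ∈ A g.1 ∧ k ξ (val g.1 ξ) = w}
  have hG1 : ∀ g, G g ∉ J := by
    rintro ⟨g, hg⟩ h
    have hg' : v g = w := hg
    refine hv g ?_
    rw [hg']
    exact h
  have hG2 : ∀ g g', g ≠ g' → G g ∩ G g' ∈ J := by
    intro g g' hne
    refine hJ.down _ _ ?_ (h2 g.1 g'.1 fun h => hne (Subtype.ext h))
    rintro ξ ⟨⟨ha, hb⟩, ⟨hc, hd⟩⟩
    exact (⟨ha, hc, hk ξ (h1 _ ξ ha) (h1 _ ξ hc) (hb.trans hd.symm)⟩ : _ ∧ _ ∧ _)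
  have hGinj : Function.Injective G := by
    intro g g' hgg
    by_contra hne
    have h3 := hG2 g g' hne
    rw [← hgg, Set.inter_self] at h3
    exact hG1 g h3
  have h4 := hs (Set.range G) (by rintro _ ⟨g, rfl⟩; exact hG1 g) (by
    rintro _ ⟨g, rfl⟩ _ ⟨g', rfl⟩ hne
    exact hG2 g g' fun h => hne (by rw [h]))
  rw [mk_range_eq _ hGinj] at h4
  exact absurd (hw.trans h4) (not_le.2 (Order.lt_succ _))

end

section

variable {ν : Cardinal.{0}} {X Ω : Type} [LinearOrder X] [LinearOrder Ω]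

/-- the points below `β` whose label is below `ξ` -/
def Pt (o : Ω → Ω → X) (β : Ω) (ξ : X) : Set Ω := {a | a < β ∧ o β a < ξ}

theorem exists_pair_closed {o : Ω → Ω → X} (ho : ∀ β, Set.InjOn (o β) (Set.Iio β)) {β β' : Ω}
    (hβ : β < β') :
    ∃ φ : X → X, ∀ ξ ∈ Cl φ, o β' β < ξ ∧ ∀ a < β, o β a < ξ ↔ o β' a < ξ := by
  have h1 : ∀ ζ : X, ∃ b, ∀ a < β, o β a = ζ → o β' a ≤ b := by
    intro ζ
    by_cases h : ∃ a < β, o β a = ζ
    · obtain ⟨a, ha, haζ⟩ := h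
      refine ⟨o β' a, fun a' ha' haζ' => ?_⟩
      rw [ho β ha' ha (haζ'.trans haζ.symm)]
    · exact ⟨ζ, fun a ha haζ => absurd ⟨a, ha, haζ⟩ h⟩
  have h2 : ∀ ζ : X, ∃ b, ∀ a < β, o β' a = ζ → o β a ≤ b := by
    intro ζ
    by_cases h : ∃ a < β, o β' a = ζ
    · obtain ⟨a, ha, haζ⟩ := h
      refine ⟨o β a, fun a' ha' haζ' => ?_⟩
      rw [ho β' (Set.mem_Iio.2 (ha'.trans hβ)) (Set.mem_Iio.2 (ha.trans hβ))
        (haζ'.trans haζ.symm)]
    · exact ⟨ζ, fun a ha haζ => absurd ⟨a, ha, haζ⟩ h⟩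
  choose b1 hb1 using h1
  choose b2 hb2 using h2
  refine ⟨fun ζ => max (o β' β) (max (b1 ζ) (b2 ζ)), ?_⟩
  rintro ξ ⟨⟨ζ, hζ⟩, hξ⟩
  refine ⟨(le_max_left _ _).trans_lt (hξ ζ hζ), fun a ha => ⟨fun h => ?_, fun h => ?_⟩⟩
  · exact ((hb1 _ a ha rfl).trans ((le_max_left _ _).trans (le_max_right _ _))).trans_lt (hξ _ h)
  · exact ((hb2 _ a ha rfl).trans ((le_max_right _ _).trans (le_max_right _ _))).trans_lt (hξ _ h)

/-- **Bounding lemma**: the canonical functions are not all bounded by a single function. -/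
theorem bounding [WellFoundedLT Ω] (hX : SuccType ν X) (hΩ : SuccType (Order.succ ν) Ω)
    {J : Set (Set X)}
    (hJ : IsIdeal (Order.succ ν) J) (hs : Saturated (Order.succ ν) J)
    (hcl : ∀ φ : X → X, (Cl φ)ᶜ ∈ J) {o : Ω → Ω → X} (ho : ∀ β, Set.InjOn (o β) (Set.Iio β))
    (S : Set X) (hS : S ∉ J) (D : Ω → Set X) (hD : ∀ β, S \ D β ∈ J) (τ : X → Ordinal.{0})
    (hτ : ∀ ξ, (τ ξ).card ≤ ν)
    (H : ∀ β, ∀ ξ ∈ S ∩ D β, ot (Pt o β ξ) < τ ξ) : False := by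
  refine few_values hX.inf hJ hs (Γ := Ω) (by rw [hΩ.card]; exact Order.lt_succ _)
    (fun β => S ∩ D β) ?_ (fun β ξ => ot (Pt o β ξ)) τ hτ H ?_
  · intro β h
    refine hS (hJ.down _ _ ?_ (hJ.union hX.inf (hD β) h))
    intro ξ hξ
    by_cases h1 : ξ ∈ D β
    · exact Or.inr ⟨hξ, h1⟩
    · exact Or.inl ⟨hξ, h1⟩
  · have key : ∀ β β', β < β' → {ξ | ξ ∈ S ∩ D β ∧ ξ ∈ S ∩ D β' ∧
        ot (Pt o β ξ) = ot (Pt o β' ξ)} ∈ J := by
      intro β β' hβ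
      obtain ⟨φ, hφ⟩ := exists_pair_closed ho hβ
      refine hJ.down _ _ ?_ (hcl φ)
      rintro ξ ⟨_, _, heq⟩ hξ
      obtain ⟨h1, h2⟩ := hφ ξ hξ
      refine (ot_lt (S := Pt o β ξ) (T := Pt o β' ξ) (b := β) ⟨hβ, h1⟩ fun a => ?_).ne heq
      constructor
      · rintro ⟨ha, ha'⟩
        exact ⟨⟨ha.trans hβ, (h2 a ha).1 ha'⟩, ha⟩
      · rintro ⟨⟨_, ha'⟩, ha⟩
        exact ⟨ha, (h2 a ha).2 ha'⟩
    intro β β' hne
    rcases lt_or_gt_of_ne hne with h | h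
    · exact key β β' h
    · refine hJ.mono ?_ (key β' β h)
      rintro ξ ⟨h1, h2, h3⟩
      exact ⟨h2, h1, h3.symm⟩

/-- eventually different functions -/
theorem exists_ev_diff (hX : SuccType ν X) [WellFoundedLT Ω] {o : Ω → Ω → X}
    (ho : ∀ β, Set.InjOn (o β) (Set.Iio β)) :
    ∃ F : Ω → X → X, ∀ β, ∀ a < β, ∀ ζ, o β a ≤ ζ → F a ζ < F β ζ := by
  have hb : ∀ (β : Ω) (G : ∀ a, a < β → X → X) (ζ : X), ∃ b, ∀ a (h : a < β), o β a ≤ ζ →
      G a h ζ < b := by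
    intro β G ζ
    have h1 : #{a : Ω | a < β ∧ o β a ≤ ζ} ≤ ν := by
      refine le_trans ?_ (hX.smallIic ζ)
      refine mk_le_of_injective (f := fun a => (⟨o β a.1, a.2.2⟩ : Set.Iic ζ)) ?_
      intro a b hab
      exact Subtype.ext (ho β a.2.1 b.2.1 (congrArg (fun z : Set.Iic ζ => z.1) hab))
    obtain ⟨b, hb⟩ := hX.bdd_range (fun a : {a : Ω | a < β ∧ o β a ≤ ζ} => G a.1 a.2.1 ζ) h1
    exact ⟨b, fun a h hle => hb ⟨a, h, hle⟩⟩
  choose b hb using hb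
  let F : Ω → X → X := (wellFounded_lt (α := Ω)).fix fun β G ζ => b β G ζ
  have hF : ∀ β, F β = fun ζ => b β (fun a _ => F a) ζ := fun β =>
    WellFounded.fix_eq _ _ _
  refine ⟨F, fun β a ha ζ hζ => ?_⟩
  rw [hF β]
  exact hb β (fun a _ => F a) ζ a ha hζ

/-- the points of uncountable cofinality -/
def Unc (X : Type) [LinearOrder X] : Set X :=
  {ξ | ∀ c : ℕ → X, (∀ n, c n < ξ) → ∃ ζ < ξ, ∀ n, c n < ζ}

/-- **Cofinality lemma** (Shelah). -/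
theorem unc_pos {ν' : Cardinal.{0}} {W : Type} [LinearOrder W] [WellFoundedLT Ω]
    (hW : SuccType ν' W) (hν : Order.succ ν' = ν) (hX : SuccType ν X)
    (hΩ : SuccType (Order.succ ν) Ω) {J : Set (Set X)}
    (hJ : IsIdeal (Order.succ ν) J) (hs : Saturated (Order.succ ν) J)
    (hcl : ∀ φ : X → X, (Cl φ)ᶜ ∈ J) : Unc X ∉ J := by
  classical
  intro hS
  -- labels
  have ho : ∃ o : Ω → Ω → X, ∀ β, Set.InjOn (o β) (Set.Iio β) := by
    have h1 : ∀ β : Ω, Nonempty (Set.Iio β ↪ X) := by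
      intro β
      rw [← Cardinal.le_def, hX.card]
      exact hΩ.small β
    have hne := hX.nonempty
    refine ⟨fun β a => if h : a < β then (h1 β).some ⟨a, h⟩ else Classical.arbitrary X, ?_⟩
    intro β a ha b hb hab
    have ha' : a < β := ha
    have hb' : b < β := hb
    simp only [ha', hb', dif_pos] at hab
    exact congrArg (fun z : Set.Iio β => z.1) ((h1 β).some.injective hab)
  obtain ⟨o, ho⟩ := ho
  have hh : ∃ h : X → X → W, ∀ ξ, Set.InjOn (h ξ) (Set.Iio ξ) := by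
    have h1 : ∀ ξ : X, Nonempty (Set.Iio ξ ↪ W) := by
      intro ξ
      rw [← Cardinal.le_def, hW.card, hν]
      exact hX.small ξ
    have hne := hW.nonempty
    refine ⟨fun β a => if h : a < β then (h1 β).some ⟨a, h⟩ else Classical.arbitrary W, ?_⟩
    intro β a ha b hb hab
    have ha' : a < β := ha
    have hb' : b < β := hb
    simp only [ha', hb', dif_pos] at hab
    exact congrArg (fun z : Set.Iio β => z.1) ((h1 β).some.injective hab)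
  obtain ⟨h, hh⟩ := hh
  obtain ⟨F, hF⟩ := exists_ev_diff hX ho
  -- cofinal sequences
  have hc : ∀ ξ, ∃ c : ℕ → X, ξ ∈ (Unc X)ᶜ → (∀ n, c n < ξ) ∧ ∀ ζ < ξ, ∃ n, ζ ≤ c n := by
    intro ξ
    by_cases hξ : ξ ∈ Unc X
    · exact ⟨fun _ => ξ, fun h' => absurd hξ h'⟩
    · have h1 : ¬ ∀ c : ℕ → X, (∀ n, c n < ξ) → ∃ ζ < ξ, ∀ n, c n < ζ := hξ
      push Not at h1
      obtain ⟨c, hc1, hc2⟩ := h1
      exact ⟨c, fun _ => ⟨hc1, hc2⟩⟩
  choose c hc using hc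
  let A : Ω → W → Set X := fun β i =>
    {ξ | ξ ∈ (Unc X)ᶜ ∧ ξ ∈ Cl (F β) ∧ ∀ n, h ξ (F β (c ξ n)) < i}
  have hA : ∀ β, ∃ i, A β i ∉ J := by
    intro β
    by_contra hcon
    push Not at hcon
    have h1 := hJ.iUnion (fun i => A β i) (by rw [hW.card, hν]) hcon
    refine hJ.proper (hJ.down _ _ ?_ (hJ.union hX.inf hS (hJ.union hX.inf (hcl (F β)) h1)))
    intro ξ _
    by_cases h2 : ξ ∈ Unc X
    · exact Or.inl h2
    · right
      by_cases h3 : ξ ∈ Cl (F β)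
      · right
        obtain ⟨i, hi⟩ := hW.bdd_range (fun n => h ξ (F β (c ξ n))) (mk_nat.le.trans hW.inf)
        exact Set.mem_iUnion.2 ⟨i, (⟨h2, h3, hi⟩ : _ ∧ _ ∧ _)⟩
      · exact Or.inl h3
  choose i hi using hA
  have hreg : (Order.succ (Order.succ ν)).IsRegular :=
    isRegular_succ (hX.inf.trans (Order.le_succ ν))
  obtain ⟨w, hw⟩ := infinite_pigeonhole_card i (Order.succ (Order.succ ν))
    (by rw [hΩ.card]) (hX.inf.trans ((Order.le_succ ν).trans (Order.le_succ _))) (by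
      rw [hreg.cof_ord, hW.card, hν]
      exact (Order.lt_succ ν).trans (Order.lt_succ _))
  -- the disjointifying functions
  have hd : ∀ β a, ∃ d : X, ∀ a' < β, a' ≠ a → o β a' < o β a →
      (a' < a → o a a' < d) ∧ (a < a' → o a' a < d) := by
    intro β a
    have h1 : #{a' : Ω | a' < β ∧ o β a' < o β a} ≤ ν := by
      refine le_trans ?_ (hX.small (o β a))
      refine mk_le_of_injective (f := fun a' => (⟨o β a'.1, a'.2.2⟩ : Set.Iio (o β a))) ?_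
      intro a' b hab
      exact Subtype.ext (ho β a'.2.1 b.2.1 (congrArg (fun z : Set.Iio (o β a) => z.1) hab))
    obtain ⟨b1, hb1⟩ := hX.bdd_range (fun a' : {a' : Ω | a' < β ∧ o β a' < o β a} =>
      max (o a a'.1) (o a'.1 a)) h1
    exact ⟨b1, fun a' ha' _ hlt => ⟨fun _ => (le_max_left _ _).trans_lt (hb1 ⟨a', ha', hlt⟩),
      fun _ => (le_max_right _ _).trans_lt (hb1 ⟨a', ha', hlt⟩)⟩⟩
  choose d hd using hd
  have hφ : ∀ β, ∃ φ : X → X, ∀ ξ ∈ Cl φ, ∀ a < β, o β a < ξ → d β a < ξ := by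
    intro β
    have h1 : ∀ ζ : X, ∃ b, ∀ a < β, o β a = ζ → d β a ≤ b := by
      intro ζ
      by_cases h : ∃ a < β, o β a = ζ
      · obtain ⟨a, ha, haζ⟩ := h
        refine ⟨d β a, fun a' ha' haζ' => ?_⟩
        rw [ho β ha' ha (haζ'.trans haζ.symm)]
      · exact ⟨ζ, fun a ha haζ => absurd ⟨a, ha, haζ⟩ h⟩
    choose b1 hb1 using h1
    exact ⟨b1, fun ξ hξ a ha hlt => (hb1 _ a ha rfl).trans_lt (hξ.2 _ hlt)⟩
  choose φ hφ using hφ
  let Γ : Set Ω := i ⁻¹' {w}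
  let Q : Ω → X → Set Ω := fun β ξ => {a | a ∈ Γ ∧ a < β ∧ o β a < ξ ∧ ξ ∈ A a w}
  have hQ : ∀ β, ∀ ξ ∈ A β w ∩ Cl (φ β), #(Q β ξ) < ν := by
    rintro β ξ ⟨⟨hξ1, _, _⟩, hξ4⟩
    have hn : ∀ a : Q β ξ, ∃ n, d β a.1 ≤ c ξ n := fun a =>
      (hc ξ hξ1).2 _ (hφ β ξ hξ4 a.1 a.2.2.1 a.2.2.2.1)
    choose n hn using hn
    have h1 : #(Q β ξ) ≤ #(ℕ × Set.Iio w) := by
      refine mk_le_of_injective
        (f := fun a => (n a, (⟨h ξ (F a.1 (c ξ (n a))), a.2.2.2.2.2.2 _⟩ : Set.Iio w))) ?_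
      intro a a' haa
      by_contra hne
      have hne' : a.1 ≠ a'.1 := fun h' => hne (Subtype.ext h')
      have e1 : n a = n a' := congrArg Prod.fst haa
      have e2 : h ξ (F a.1 (c ξ (n a))) = h ξ (F a'.1 (c ξ (n a'))) :=
        congrArg (fun z : ℕ × Set.Iio w => z.2.1) haa
      have hcn : c ξ (n a) < ξ := (hc ξ hξ1).1 _
      rw [← e1] at e2
      have e3 : F a.1 (c ξ (n a)) = F a'.1 (c ξ (n a)) :=
        hh ξ (a.2.2.2.2.2.1.2 _ hcn) (a'.2.2.2.2.2.1.2 _ hcn) e2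
      have hna' : d β a'.1 ≤ c ξ (n a) := by
        rw [e1]
        exact hn a'
      have ho' : o β a.1 ≠ o β a'.1 := fun h' => hne' (ho β a.2.2.1 a'.2.2.1 h')
      have hbig : (a'.1 < a.1 → o a.1 a'.1 < c ξ (n a)) ∧ (a.1 < a'.1 → o a'.1 a.1 < c ξ (n a)) := by
        rcases lt_or_gt_of_ne ho' with h2 | h2
        · have h3 := hd β a'.1 a.1 a.2.2.1 hne' h2
          exact ⟨fun h4 => (h3.2 h4).trans_le hna', fun h4 => (h3.1 h4).trans_le hna'⟩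
        · have h3 := hd β a.1 a'.1 a'.2.2.1 hne'.symm h2
          exact ⟨fun h4 => (h3.1 h4).trans_le (hn a), fun h4 => (h3.2 h4).trans_le (hn a)⟩
      rcases lt_or_gt_of_ne hne' with h2 | h2
      · exact (hF a'.1 a.1 h2 _ (hbig.2 h2).le).ne e3
      · exact (hF a.1 a'.1 h2 _ (hbig.1 h2).le).ne e3.symm
    refine h1.trans_lt ?_
    rw [← hν, Order.lt_succ_iff, mk_prod]
    simp only [mk_eq_aleph0, lift_id]
    exact mul_le_of_le hW.inf hW.inf (hW.small w)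
  refine few_values hX.inf hJ hs (Γ := Γ) ((Order.lt_succ _).trans_le hw)
    (fun β => A β.1 w ∩ Cl (φ β.1)) ?_ (fun β ξ => ot (Q β.1 ξ)) (fun _ => ν.ord) ?_ ?_ ?_
  · rintro ⟨β, hβ⟩ h1
    have hβ' : i β = w := hβ
    refine hi β ?_
    rw [hβ']
    refine hJ.down _ _ ?_ (hJ.union hX.inf (hcl (φ β)) h1)
    intro ξ hξ
    by_cases h2 : ξ ∈ Cl (φ β)
    · exact Or.inr ⟨hξ, h2⟩
    · exact Or.inl h2
  · intro _
    rw [card_ord]
  · rintro ⟨β, hβ⟩ ξ hξ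
    rw [lt_ord, card_ot]
    exact hQ β ξ hξ
  · have key : ∀ β β' : Γ, β < β' → {ξ | ξ ∈ A β.1 w ∩ Cl (φ β.1) ∧
        ξ ∈ A β'.1 w ∩ Cl (φ β'.1) ∧ ot (Q β.1 ξ) = ot (Q β'.1 ξ)} ∈ J := by
      intro β β' hβ
      obtain ⟨ψ, hψ⟩ := exists_pair_closed ho (show β.1 < β'.1 from hβ)
      refine hJ.down _ _ ?_ (hcl ψ)
      rintro ξ ⟨hξ1, _, heq⟩ hξ
      obtain ⟨h1, h2⟩ := hψ ξ hξ
      refine (ot_lt (S := Q β.1 ξ) (T := Q β'.1 ξ) (b := β.1) ⟨β.2, hβ, h1, hξ1.1⟩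
        fun a => ?_).ne heq
      constructor
      · rintro ⟨ha1, ha2, ha3, ha4⟩
        exact ⟨⟨ha1, ha2.trans hβ, (h2 a ha2).1 ha3, ha4⟩, ha2⟩
      · rintro ⟨⟨ha1, _, ha3, ha4⟩, ha2⟩
        exact ⟨ha1, ha2, (h2 a ha2).2 ha3, ha4⟩
    intro β β' hne
    rcases lt_or_gt_of_ne hne with h1 | h1
    · exact key β β' h1
    · refine hJ.mono ?_ (key β' β h1)
      rintro ξ ⟨h1, h2, h3⟩
      exact ⟨h2, h1, h3.symm⟩

end

end Pool.Agent.Helper155_ST
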