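import Mathlib

/-!
# Trees, saturated ideals and thin families of well-orders: the definitions
-/

set_option autoImplicit false

namespace Pool.Agent.Helper155_ST

open Cardinal Set

/-- The set `ω_n` (the initial ordinal of the cardinal `ℵ_n`) as a well-ordered type. -/
abbrev Om (n : ℕ) : Type := (ℵ_ (n : Ordinal.{0})).ord.ToType

/-- `t` is a node of height `α`: the set of predecessors of `t` is well-ordered in type `α`. -/
def HasHeight {T : Type} [PartialOrder T] (t : T) (α : Ordinal.{0}) : Prop :=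
  Nonempty (Set.Iio t ≃o Set.Iio α)

/-- `T` is a `κ`-tree: every node has a height below `κ`, every level below `κ` is nonempty, and
every level has cardinality less than `κ`. -/
structure IsTree (κ : Cardinal.{0}) (T : Type) [PartialOrder T] : Prop where
  height : ∀ t : T, ∃ α < κ.ord, HasHeight t α
  nonempty : ∀ α < κ.ord, ∃ t : T, HasHeight t α
  small : ∀ α < κ.ord, #{t : T | HasHeight t α} < κ

/-- The tree property at `κ`: every `κ`-tree has a cofinal branch, that is, a chain which meets
all levels below `κ`. -/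
def TreeProperty (κ : Cardinal.{0}) : Prop :=
  ∀ (T : Type) [PartialOrder T], IsTree κ T →
    ∃ b : Set T, IsChain (· ≤ ·) b ∧ ∀ α < κ.ord, ∃ t ∈ b, HasHeight t α

/-- There is a special `ω_{n+1}`-Aronszajn tree: an `ω_{n+1}`-tree with a function to `ω_n` which
takes different values at comparable nodes. -/
def SpecialTree (n : ℕ) : Prop :=
  ∃ (T : Type) (_ : PartialOrder T), IsTree (ℵ_ ((n + 1 : ℕ) : Ordinal.{0})) T ∧
    ∃ f : T → Om n, ∀ s t : T, s < t → f s ≠ f t

/-- `I` is a proper `κ`-complete ideal of subsets of `X` which contains all singletons. -/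
structure IsIdeal (κ : Cardinal.{0}) {X : Type} (I : Set (Set X)) : Prop where
  proper : Set.univ ∉ I
  down : ∀ A B : Set X, A ⊆ B → B ∈ I → A ∈ I
  complete : ∀ F : Set (Set X), #F < κ → (∀ A ∈ F, A ∈ I) → ⋃₀ F ∈ I
  single : ∀ x, {x} ∈ I

/-- every family of positive sets with pairwise intersections in `I` has cardinality at most
`κ`. -/
def Saturated (κ : Cardinal.{0}) {X : Type} (I : Set (Set X)) : Prop :=
  ∀ F : Set (Set X), (∀ A ∈ F, A ∉ I) → (∀ A ∈ F, ∀ B ∈ F, A ≠ B → A ∩ B ∈ I) → #F ≤ κ

/-- There is a saturated ideal on `ω_n`. -/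
def SatIdeal (n : ℕ) : Prop :=
  ∃ I : Set (Set (Om n)), IsIdeal (ℵ_ (n : Ordinal.{0})) I ∧ Saturated (ℵ_ (n : Ordinal.{0})) I

/-- the trace of a relation on a set -/
def tr {Y : Type} (s : Set Y) (R : Y → Y → Prop) : Y → Y → Prop :=
  fun a b => a ∈ s ∧ b ∈ s ∧ R a b

/-- the set of traces of the members of a family on a set -/
def Traces {Y : Type} (𝓡 : Set (Y → Y → Prop)) (s : Set Y) : Set (Y → Y → Prop) :=
  {t | ∃ R ∈ 𝓡, t = tr s R}

/-- `𝓡` is a set of well-orders of `Y`, every proper initial segment of `Ω` embeds into a member of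
`𝓡`, and on every countable subset of `Y` the members of `𝓡` have at most `κ` traces. -/
structure IsThin (κ : Cardinal.{0}) {Y : Type} (Ω : Type) [LinearOrder Ω]
    (𝓡 : Set (Y → Y → Prop)) : Prop where
  wo : ∀ R ∈ 𝓡, IsWellOrder Y R
  unb : ∀ b : Ω, ∃ R ∈ 𝓡, Nonempty ((fun x y : Set.Iio b => x.1 < y.1) ↪r R)
  few : ∀ s : Set Y, s.Countable → #(Traces 𝓡 s) ≤ κ

/-- There is a set of well-orders of `ω_n` whose order types are unbounded in `ω_{n+1}` and which
has at most `ℵ_n` traces on every countable subset of `ω_n`. -/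
def Thin (n : ℕ) : Prop :=
  ∃ 𝓡 : Set (Om n → Om n → Prop), IsThin (ℵ_ (n : Ordinal.{0})) (Om (n + 1)) 𝓡

end Pool.Agent.Helper155_ST
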