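import Pool.Agent.Helper155_ST.Walk

/-!
# From a thin family of well-orders of `ω_{n+1}` to a thin family of well-orders of `ω_n`
-/

set_option autoImplicit false

namespace Pool.Agent.Helper155_ST

open Cardinal Set

/-- every set of size at most `ν` has a cofinal family of `ν` countable subsets -/
def Cof (ν : Cardinal.{0}) : Prop :=
  ∀ Y : Type, #Y ≤ ν → ∃ 𝒮 : Set (Set Y), #𝒮 ≤ ν ∧ (∀ s ∈ 𝒮, s.Countable) ∧
    ∀ y : Set Y, y.Countable → ∃ s ∈ 𝒮, y ⊆ s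

theorem cof_aleph0 : Cof ℵ₀ := by
  intro Y hY
  refine ⟨{Set.univ}, ?_, ?_, ?_⟩
  · rw [mk_singleton]
    exact one_le_aleph0
  · rintro s rfl
    rw [← Cardinal.le_aleph0_iff_set_countable, mk_univ]
    exact hY
  · intro y _
    exact ⟨_, rfl, Set.subset_univ y⟩

theorem cof_succ {ν : Cardinal.{0}} {X : Type} [LinearOrder X] (hX : SuccType ν X)
    (h : Cof ν) : Cof (Order.succ ν) := by
  intro Y hY
  have hf : Nonempty (Y ↪ X) := by
    rw [← Cardinal.le_def, hX.card]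
    exact hY
  obtain ⟨f⟩ := hf
  have hc : ∀ x : X, ∃ 𝒮 : Set (Set Y), #𝒮 ≤ ν ∧ (∀ s ∈ 𝒮, s.Countable) ∧
      ∀ y : Set Y, y.Countable → (∀ a ∈ y, f a < x) → ∃ s ∈ 𝒮, y ⊆ s := by
    intro x
    have h1 : #{a : Y | f a < x} ≤ ν := by
      refine le_trans ?_ (hX.small x)
      refine mk_le_of_injective (f := fun a => (⟨f a.1, a.2⟩ : Set.Iio x)) ?_
      intro a b hab
      exact Subtype.ext (f.injective (congrArg (fun z : Set.Iio x => z.1) hab))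
    obtain ⟨𝒮, h2, h3, h4⟩ := h _ h1
    refine ⟨(fun s => Subtype.val '' s) '' 𝒮, mk_image_le.trans h2, ?_, ?_⟩
    · rintro _ ⟨s, hs, rfl⟩
      exact (h3 s hs).image _
    · intro y hy hyx
      obtain ⟨s, hs, hys⟩ := h4 (Subtype.val ⁻¹' y) (hy.preimage Subtype.val_injective)
      refine ⟨_, ⟨s, hs, rfl⟩, ?_⟩
      intro a ha
      exact ⟨⟨a, hyx a ha⟩, hys ha, rfl⟩
  choose 𝒮 h1 h2 h3 using hc
  refine ⟨⋃ x, 𝒮 x, ?_, ?_, ?_⟩
  · refine (mk_iUnion_le _).trans ?_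
    rw [hX.card]
    refine (mul_le_mul' le_rfl (ciSup_le' fun x => (h1 x).trans (Order.le_succ ν))).trans ?_
    exact (mul_eq_self (hX.inf.trans (Order.le_succ ν))).le
  · intro s hs
    obtain ⟨x, hx⟩ := Set.mem_iUnion.1 hs
    exact h2 x s hx
  · intro y hy
    obtain ⟨b, hb⟩ := hX.bdd (f '' y) (mk_image_le.trans
      ((Cardinal.le_aleph0_iff_set_countable.2 hy).trans hX.inf))
    obtain ⟨s, hs, hys⟩ := h3 b y hy fun a ha => hb _ ⟨a, ha, rfl⟩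
    exact ⟨s, Set.mem_iUnion.2 ⟨b, hs⟩, hys⟩

theorem tr_eq_of_subset {Y : Type} {s y : Set Y} (h : y ⊆ s) {R R' : Y → Y → Prop}
    (he : tr s R = tr s R') : tr y R = tr y R' := by
  funext a b
  have h1 := congrFun (congrFun he a) b
  unfold tr at h1 ⊢
  refine propext ?_
  have h2 := h1.to_iff
  constructor
  · rintro ⟨ha, hb, hR⟩
    exact ⟨ha, hb, (h2.1 ⟨h ha, h hb, hR⟩).2.2⟩
  · rintro ⟨ha, hb, hR⟩
    exact ⟨ha, hb, (h2.2 ⟨h ha, h hb, hR⟩).2.2⟩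

section

variable {ν : Cardinal.{0}} {X : Type} [LinearOrder X]

/-- few traces on the countable subsets of a point of uncountable cofinality -/
theorem traces_at (hX : SuccType ν X) {𝓡 : Set (X → X → Prop)}
    (𝒮 : (ζ : X) → Set (Set (Set.Iio ζ)))
    (h𝒮 : ∀ ζ, ∀ y : Set (Set.Iio ζ), y.Countable → ∃ s ∈ 𝒮 ζ, y ⊆ s)
    (ι : Set X → (X → X → Prop) → X)
    (hι : ∀ ζ, ∀ s ∈ 𝒮 ζ, ∀ R ∈ 𝓡, ∀ R' ∈ 𝓡,
      ι (Subtype.val '' s) (tr (Subtype.val '' s) R) = ι (Subtype.val '' s)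
        (tr (Subtype.val '' s) R') → tr (Subtype.val '' s) R = tr (Subtype.val '' s) R')
    (φ : (X → X → Prop) → X → X)
    (hφ : ∀ R ζ, ∀ s ∈ 𝒮 ζ, ι (Subtype.val '' s) (tr (Subtype.val '' s) R) < φ R ζ)
    (ξ : X) (hξ : ξ ∈ Unc X) (y : Set X) (hy : y.Countable) (hyξ : ∀ a ∈ y, a < ξ) :
    #(Traces {R | R ∈ 𝓡 ∧ ξ ∈ Cl (φ R)} y) ≤ ν := by
  rcases Set.eq_empty_or_nonempty {R | R ∈ 𝓡 ∧ ξ ∈ Cl (φ R)} with he | ⟨R0, hR0⟩
  · have h1 : Traces {R | R ∈ 𝓡 ∧ ξ ∈ Cl (φ R)} y = ∅ := by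
      rw [he]
      refine Set.eq_empty_of_forall_notMem ?_
      rintro t ⟨R, hR, _⟩
      exact hR
    rw [h1]
    simp
  · obtain ⟨ζ0, hζ0⟩ := hR0.2.1
    have hne : (insert ζ0 y).Nonempty := ⟨ζ0, Set.mem_insert _ _⟩
    obtain ⟨c, hc⟩ := (hy.insert ζ0).exists_eq_range hne
    have hcξ : ∀ n, c n < ξ := by
      intro n
      have h1 : c n ∈ insert ζ0 y := by
        rw [hc]
        exact ⟨n, rfl⟩
      rcases h1 with h1 | h1
      · rw [h1]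
        exact hζ0
      · exact hyξ _ h1
    obtain ⟨ζ, hζ, hcζ⟩ := hξ c hcξ
    have hyζ : ∀ a ∈ y, a < ζ := by
      intro a ha
      have h1 : a ∈ insert ζ0 y := Set.mem_insert_of_mem _ ha
      rw [hc] at h1
      obtain ⟨n, rfl⟩ := h1
      exact hcζ n
    obtain ⟨s, hs, hys⟩ := h𝒮 ζ (Subtype.val ⁻¹' y) (hy.preimage Subtype.val_injective)
    have hys' : y ⊆ Subtype.val '' s := fun a ha => ⟨⟨a, hyζ a ha⟩, hys ha, rfl⟩
    have hT : ∀ t : Traces {R | R ∈ 𝓡 ∧ ξ ∈ Cl (φ R)} y, ∃ R, (R ∈ 𝓡 ∧ ξ ∈ Cl (φ R)) ∧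
        t.1 = tr y R := fun t => t.2
    choose R hR1 hR2 using hT
    refine le_trans ?_ (hX.small ξ)
    refine mk_le_of_injective (f := fun t =>
      (⟨ι (Subtype.val '' s) (tr (Subtype.val '' s) (R t)),
        (hφ (R t) ζ s hs).trans ((hR1 t).2.2 ζ hζ)⟩ : Set.Iio ξ)) ?_
    intro t t' htt
    have h1 := hι ζ s hs _ (hR1 t).1 _ (hR1 t').1 (congrArg (fun z : Set.Iio ξ => z.1) htt)
    refine Subtype.ext ?_
    rw [hR2 t, hR2 t']
    exact tr_eq_of_subset hys' h1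

/-- **The step down.** -/
theorem step_down {ν' : Cardinal.{0}} {W Ω : Type} [LinearOrder W] [LinearOrder Ω]
    (hW : SuccType ν' W) (hν : Order.succ ν' = ν) (hX : SuccType ν X)
    (hΩ : SuccType (Order.succ ν) Ω) (hcof : Cof ν) {I : Set (Set X)}
    (hI : IsIdeal (Order.succ ν) I) (hs : Saturated (Order.succ ν) I)
    {𝓡 : Set (X → X → Prop)} (h : IsThin (Order.succ ν) Ω 𝓡) :
    ∃ 𝓡' : Set (W → W → Prop), IsThin ν X 𝓡' := by
  classical
  have hXwf := hX.wf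
  have hΩwf := hΩ.wf
  obtain ⟨J, hJ, hJs, hcl⟩ := exists_normal hX hI hs
  have hunc := unc_pos hW hν hX hΩ hJ hJs hcl
  -- a point beyond which initial segments have size `ν`
  have hx0 : ∃ x0 : X, ν ≤ #(Set.Iio x0) := by
    have h1 : Nonempty (W ↪ X) := by
      rw [← Cardinal.le_def, hX.card, hW.card, hν]
      exact Order.le_succ ν
    obtain ⟨f⟩ := h1
    obtain ⟨b, hb⟩ := hX.bdd_range f (by rw [hW.card, hν])
    refine ⟨b, ?_⟩
    rw [← hν, ← hW.card]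
    refine mk_le_of_injective (f := fun w => (⟨f w, hb w⟩ : Set.Iio b)) ?_
    intro w w' hww
    exact f.injective (congrArg (fun z : Set.Iio b => z.1) hww)
  obtain ⟨x0, hx0⟩ := hx0
  have hequiv : ∀ ξ : X, x0 < ξ → Nonempty (W ≃ Set.Iio ξ) := by
    intro ξ hξ
    rw [← Cardinal.eq, hW.card, hν]
    refine le_antisymm (hx0.trans (mk_le_mk_of_subset ?_)) (hX.small ξ)
    exact fun a ha => (show a < x0 from ha).trans hξ
  -- the data
  choose 𝒮 h𝒮1 h𝒮2 h𝒮3 using fun ζ : X => hcof (Set.Iio ζ) (hX.small ζ)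
  have hι : ∀ s : Set X, ∃ ι : (X → X → Prop) → X, s.Countable → ∀ R ∈ 𝓡, ∀ R' ∈ 𝓡,
      ι (tr s R) = ι (tr s R') → tr s R = tr s R' := by
    intro s
    by_cases hsc : s.Countable
    · have h1 : Nonempty (Traces 𝓡 s ↪ X) := by
        rw [← Cardinal.le_def, hX.card]
        exact h.few s hsc
      obtain ⟨f⟩ := h1
      refine ⟨fun t => if ht : t ∈ Traces 𝓡 s then f ⟨t, ht⟩ else x0, fun _ R hR R' hR' he => ?_⟩
      have m1 : tr s R ∈ Traces 𝓡 s := ⟨R, hR, rfl⟩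
      have m2 : tr s R' ∈ Traces 𝓡 s := ⟨R', hR', rfl⟩
      simp only [m1, m2, dif_pos] at he
      exact congrArg (fun z : Traces 𝓡 s => z.1) (f.injective he)
    · exact ⟨fun _ => x0, fun h' => absurd h' hsc⟩
  choose ι hι using hι
  choose φ hφ using fun (R : X → X → Prop) (ζ : X) =>
    hX.bdd_range (fun s : 𝒮 ζ => ι (Subtype.val '' s.1) (tr (Subtype.val '' s.1) R)) (h𝒮1 ζ)
  have htr := traces_at hX 𝒮 h𝒮3 ι
    (fun ζ s hs' => hι (Subtype.val '' s) ((h𝒮2 ζ s hs').image _)) φ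
    (fun R ζ s hs' => hφ R ζ ⟨s, hs'⟩)
  by_contra hcon
  -- bounds
  have hbd : ∀ ξ : X, ∃ a : X, ξ ∈ Unc X → x0 < ξ → ∀ R ∈ 𝓡, ξ ∈ Cl (φ R) →
      ¬ Nonempty ((fun x y : Set.Iio a => x.1 < y.1) ↪r (fun u v : Set.Iio ξ => R u.1 v.1)) := by
    intro ξ
    by_cases hξ : ξ ∈ Unc X ∧ x0 < ξ
    · obtain ⟨e⟩ := hequiv ξ hξ.2
      by_contra hno
      push Not at hno
      refine hcon ⟨{R' | ∃ R ∈ 𝓡, ξ ∈ Cl (φ R) ∧ R' = fun a b => R (e a).1 (e b).1}, ?_, ?_, ?_⟩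
      · rintro _ ⟨R, hR, _, rfl⟩
        have h1 := h.wo R hR
        let g : W ↪ X := e.toEmbedding.trans (Function.Embedding.subtype _)
        let rg : (fun a b : W => R (e a).1 (e b).1) ↪r R := ⟨g, Iff.rfl⟩
        exact rg.isWellOrder
      · intro b
        obtain ⟨_, _, R, hR, hξR, ⟨g⟩⟩ := hno b
        refine ⟨_, ⟨R, hR, hξR, rfl⟩, ⟨?_⟩⟩
        let re : (fun u v : Set.Iio ξ => R u.1 v.1) ↪r (fun a b : W => R (e a).1 (e b).1) :=
          ⟨e.symm.toEmbedding, by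
            intro u v
            simp⟩
        exact g.trans re
      · intro s hsc
        have h1 := htr ξ hξ.1 ((fun w => (e w).1) '' s) (hsc.image _) (by
          rintro _ ⟨w, _, rfl⟩
          exact (e w).2)
        refine le_trans ?_ h1
        have hT : ∀ t : Traces {R' | ∃ R ∈ 𝓡, ξ ∈ Cl (φ R) ∧ R' = fun a b => R (e a).1 (e b).1} s,
            ∃ R, (R ∈ 𝓡 ∧ ξ ∈ Cl (φ R)) ∧ t.1 = tr s (fun a b => R (e a).1 (e b).1) := by
          rintro ⟨t, R', ⟨R, hR, hξR, rfl⟩, rfl⟩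
          exact ⟨R, ⟨hR, hξR⟩, rfl⟩
        choose R hR1 hR2 using hT
        refine mk_le_of_injective (f := fun t =>
          (⟨tr ((fun w => (e w).1) '' s) (R t), ⟨R t, hR1 t, rfl⟩⟩ :
            Traces {R | R ∈ 𝓡 ∧ ξ ∈ Cl (φ R)} ((fun w => (e w).1) '' s))) ?_
        intro t t' htt
        have h2 : tr ((fun w => (e w).1) '' s) (R t) = tr ((fun w => (e w).1) '' s) (R t') :=
          congrArg (fun z : Traces {R | R ∈ 𝓡 ∧ ξ ∈ Cl (φ R)} ((fun w => (e w).1) '' s) => z.1) htt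
        refine Subtype.ext ?_
        rw [hR2 t, hR2 t']
        funext a b
        have h3 := (congrFun (congrFun h2 (e a).1) (e b).1).to_iff
        refine propext ⟨?_, ?_⟩
        · rintro ⟨ha, hb, hab⟩
          exact ⟨ha, hb, (h3.1 ⟨⟨a, ha, rfl⟩, ⟨b, hb, rfl⟩, hab⟩).2.2⟩
        · rintro ⟨ha, hb, hab⟩
          exact ⟨ha, hb, (h3.2 ⟨⟨a, ha, rfl⟩, ⟨b, hb, rfl⟩, hab⟩).2.2⟩
    · exact ⟨x0, fun h1 h2 => absurd ⟨h1, h2⟩ hξ⟩
  choose a ha using hbd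
  -- the family indexed by `Ω`
  choose R hR emb using h.unb
  have emb' : ∀ β, ∃ g : Ω → X, ∀ x < β, ∀ y < β, R β (g x) (g y) ↔ x < y := by
    intro β
    obtain ⟨g⟩ := emb β
    refine ⟨fun x => if hx : x < β then g ⟨x, hx⟩ else x0, ?_⟩
    intro x hx y hy
    simp only [hx, hy, dif_pos]
    exact g.map_rel_iff
  choose o ho using emb'
  have hinj : ∀ β, Set.InjOn (o β) (Set.Iio β) := by
    intro β x hx y hy hxy
    have := h.wo _ (hR β)
    by_contra hne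
    rcases lt_or_gt_of_ne hne with h1 | h1
    · have h2 := (ho β x hx y hy).2 h1
      rw [hxy] at h2
      exact irrefl_of (R β) _ h2
    · have h2 := (ho β y hy x hx).2 h1
      rw [hxy] at h2
      exact irrefl_of (R β) _ h2
  refine bounding hX hΩ hJ hJs hcl hinj (Unc X ∩ {ξ | x0 < ξ}) ?_ (fun β => Cl (φ (R β))) ?_
    (fun ξ => ot (Set.Iio (a ξ))) ?_ ?_
  · intro h1
    have h2 : {ξ | ξ ≤ x0} ∈ J := hJ.ofCard _ (hX.smallIic x0)
    refine hunc (hJ.down _ _ ?_ (hJ.union hX.inf h1 h2))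
    intro ξ hξ
    by_cases h3 : x0 < ξ
    · exact Or.inl ⟨hξ, h3⟩
    · exact Or.inr (not_lt.1 h3)
  · intro β
    exact hJ.down _ _ (fun ξ hξ => hξ.2) (hcl (φ (R β)))
  · intro ξ
    rw [card_ot]
    exact hX.small _
  · rintro β ξ ⟨⟨hξ1, hξ2⟩, hξ3⟩
    by_contra hle
    rw [not_lt] at hle
    have h1 := Ordinal.type_le_iff'.1 hle
    obtain ⟨g⟩ := h1
    refine ha ξ hξ1 hξ2 (R β) (hR β) hξ3 ⟨?_⟩
    let re : (fun x y : Pt o β ξ => x < y) ↪r (fun u v : Set.Iio ξ => R β u.1 v.1) :=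
      ⟨⟨fun x => ⟨o β x.1, x.2.2⟩, fun x y hxy => Subtype.ext
        (hinj β x.2.1 y.2.1 (congrArg (fun z : Set.Iio ξ => z.1) hxy))⟩, by
        intro x y
        exact ho β x.1 x.2.1 y.1 y.2.1⟩
    exact g.trans re

end

end Pool.Agent.Helper155_ST
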