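import Pool.Agent.Helper155_ST.Tree
import Pool.Agent.Helper155_ST.Step

/-!
# Assembling the theorem
-/

set_option autoImplicit false

namespace Pool.Agent.Helper155_ST

open Cardinal Set

theorem aleph_succ' (n : ℕ) : ℵ_ ((n + 1 : ℕ) : Ordinal.{0}) =
    Order.succ (ℵ_ (n : Ordinal.{0})) := by
  rw [Cardinal.succ_aleph]
  push_cast
  rfl

theorem succType (n : ℕ) : SuccType (ℵ_ (n : Ordinal.{0})) (Om (n + 1)) where
  inf := aleph0_le_aleph _
  wf := inferInstance
  card := by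
    rw [← aleph_succ']
    exact mk_ord_toType _
  small x := by
    rw [← Order.lt_succ_iff, ← aleph_succ']
    exact Cardinal.mk_Iio_toType_ord_lt x

theorem cof_aleph (n : ℕ) : Cof (ℵ_ (n : Ordinal.{0})) := by
  induction n with
  | zero =>
    have h : ℵ_ ((0 : ℕ) : Ordinal.{0}) = ℵ₀ := by simp
    rw [h]
    exact cof_aleph0
  | succ n ih =>
    rw [aleph_succ']
    exact cof_succ (succType n) ih

/-- the step down for the alephs -/
theorem thin_down (n : ℕ) (hI : SatIdeal (n + 2)) (h : Thin (n + 2)) : Thin (n + 1) := by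
  obtain ⟨I, hI, hs⟩ := hI
  obtain ⟨𝓡, h𝓡⟩ := h
  have e1 := aleph_succ' n
  have e2 := aleph_succ' (n + 1)
  have e3 : ((n + 2 : ℕ) : Ordinal.{0}) = ((n + 1 + 1 : ℕ) : Ordinal.{0}) := rfl
  rw [e3, e2] at hI hs h𝓡
  have hΩ : SuccType (Order.succ (ℵ_ ((n + 1 : ℕ) : Ordinal.{0}))) (Om (n + 3)) := by
    rw [← e2]
    exact succType (n + 2)
  exact step_down (succType n) e1.symm (succType (n + 1)) hΩ (cof_aleph (n + 1)) hI hs h𝓡

theorem thin_one (n : ℕ) (hI : ∀ k, 2 ≤ k → k ≤ n + 1 → SatIdeal k) (h : Thin (n + 1)) :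
    Thin 1 := by
  induction n with
  | zero => exact h
  | succ n ih =>
    exact ih (fun k h1 h2 => hI k h1 (h2.trans (Nat.le_succ _)))
      (thin_down n (hI (n + 2) (by omega) le_rfl) h)

/-- a thin family gives a system of initial segment embeddings -/
theorem exists_initSys {κ : Cardinal.{0}} {W Ω : Type} [LinearOrder Ω] [WellFoundedLT Ω]
    [Nonempty W] {𝓡 : Set (W → W → Prop)} (h : IsThin κ Ω 𝓡) :
    ∃ (R : Ω → W → W → Prop) (e : Ω → Ω → W), (∀ β, R β ∈ 𝓡) ∧ InitSys R e := by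
  classical
  choose R hR emb using h.unb
  have hf : ∀ β, ∃ f : Ω → W, (∀ a < β, ∀ b < β, R β (f a) (f b) ↔ a < b) ∧
      ∀ b < β, ∀ w, R β w (f b) → ∃ a < b, f a = w := by
    intro β
    have hwo := h.wo _ (hR β)
    obtain ⟨g⟩ := emb β
    have hlt : IsWellOrder (Set.Iio β) (fun x y => x.1 < y.1) :=
      (inferInstance : IsWellOrder (Set.Iio β) (· < ·))
    have h1 : Ordinal.type (fun x y : Set.Iio β => x.1 < y.1) ≤ Ordinal.type (R β) :=
      Ordinal.type_le_iff'.2 ⟨g⟩
    obtain ⟨f⟩ := Ordinal.type_le_iff.1 h1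
    refine ⟨fun x => if hx : x < β then f ⟨x, hx⟩ else Classical.arbitrary W, ?_, ?_⟩
    · intro a ha b hb
      simp only [ha, hb, dif_pos]
      exact f.map_rel_iff
    · intro b hb w hw
      simp only [hb, dif_pos] at hw
      obtain ⟨a, ha⟩ := f.mem_range_of_rel hw
      have h2 : a.1 < b := by
        rw [← ha] at hw
        exact f.map_rel_iff.1 hw
      refine ⟨a.1, h2, ?_⟩
      have h3 : a.1 < β := a.2
      simp only [h3, dif_pos]
      exact ha
  choose e he1 he2 using hf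
  exact ⟨R, e, hR, fun β => h.wo _ (hR β), he1, he2⟩

theorem Traces.mono {Y : Type} {𝓡 𝓡' : Set (Y → Y → Prop)} (h : 𝓡 ⊆ 𝓡') (s : Set Y) :
    Traces 𝓡 s ⊆ Traces 𝓡' s := by
  rintro t ⟨R, hR, rfl⟩
  exact ⟨R, h hR, rfl⟩

/-- initial segments correspond under an isomorphism with the ordinals below `o` -/
noncomputable def isoOrd {o : Ordinal.{0}} {A : Type} [LinearOrder A] (f : A ≃o Set.Iio o)
    (a : A) : Set.Iio a ≃o Set.Iio (f a).1 where
  toFun b := ⟨(f b.1).1, f.lt_iff_lt.2 b.2⟩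
  invFun c := ⟨f.symm ⟨c.1, lt_trans (show c.1 < (f a).1 from c.2) (f a).2⟩, by
    have h1 : f.symm ⟨c.1, lt_trans (show c.1 < (f a).1 from c.2) (f a).2⟩ < f.symm (f a) :=
      f.symm.lt_iff_lt.2 c.2
    rwa [OrderIso.symm_apply_apply] at h1⟩
  left_inv b := by
    refine Subtype.ext ?_
    exact f.symm_apply_apply b.1
  right_inv c := by
    refine Subtype.ext ?_
    exact congrArg (fun z : Set.Iio o => z.1) (f.apply_symm_apply
      ⟨c.1, lt_trans (show c.1 < (f a).1 from c.2) (f a).2⟩)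
  map_rel_iff' := by
    intro b c
    exact f.le_iff_le (x := b.1) (y := c.1)

theorem iso_unique {α β : Ordinal.{0}} (h : Nonempty (Set.Iio α ≃o Set.Iio β)) : α = β := by
  obtain ⟨f⟩ := h
  have h1 := f.toRelIsoLT.ordinalType_congr
  rw [Ordinal.type_lt_Iio, Ordinal.type_lt_Iio] at h1
  exact Ordinal.lift_inj.1 h1

section Final

variable {W : Type} [LinearOrder W] [WellFoundedLT W] {κ : Cardinal.{0}} {A : Type}
  [LinearOrder A] [WellFoundedLT A] {e : A → A → W}

theorem hasHeight_iff (f : A ≃o Set.Iio κ.ord) (t : Node e) (α : Ordinal.{0}) :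
    HasHeight t α ↔ (f t.lv).1 = α := by
  constructor
  · rintro ⟨g⟩
    exact iso_unique ⟨((isoOrd f t.lv).symm.trans t.iso.symm).trans g⟩
  · rintro rfl
    exact ⟨t.iso.trans (isoOrd f t.lv)⟩

theorem node_isTree (f : A ≃o Set.Iio κ.ord) (hsmall : ∀ a : A, #{t : Node e | t.lv = a} < κ) :
    IsTree κ (Node e) := by
  refine ⟨fun t => ⟨(f t.lv).1, (f t.lv).2, (hasHeight_iff f t _).2 rfl⟩, ?_, ?_⟩
  · intro α hα
    obtain ⟨t, ht⟩ := Node.exists_level (e := e) (f.symm ⟨α, hα⟩)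
    refine ⟨t, (hasHeight_iff f t α).2 ?_⟩
    rw [ht, OrderIso.apply_symm_apply]
  · intro α hα
    refine lt_of_le_of_lt (mk_le_mk_of_subset ?_) (hsmall (f.symm ⟨α, hα⟩))
    intro t ht
    have h1 := (hasHeight_iff f t α).1 ht
    have h2 : f t.lv = ⟨α, hα⟩ := Subtype.ext h1
    change t.lv = _
    rw [← h2, OrderIso.symm_apply_apply]

end Final

theorem list_card_le {W : Type} {κ : Cardinal.{0}} (hκ : ℵ₀ ≤ κ) (h : #W ≤ κ) :
    #(List W) ≤ κ := by
  rcases isEmpty_or_nonempty W with h' | h'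
  · have : Subsingleton (List W) := by
      refine ⟨fun l l' => ?_⟩
      cases l with
      | nil =>
        cases l' with
        | nil => rfl
        | cons q _ => exact (h'.false q).elim
      | cons q _ => exact (h'.false q).elim
    exact (Cardinal.le_one_iff_subsingleton.2 this).trans (one_le_aleph0.trans hκ)
  · exact (Cardinal.mk_list_le_max W).trans (max_le hκ h)

/-- **From a thin family of well-orders of `ω₁` to a special `ω₂`-Aronszajn tree.** -/
theorem specialTree_of_thin (h : Thin 1) : SpecialTree 1 := by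
  obtain ⟨𝓡, h𝓡⟩ := h
  have hW := succType 0
  have hΩ := succType 1
  have h0 : ℵ_ ((0 : ℕ) : Ordinal.{0}) = ℵ₀ := by simp
  have h1 := aleph_succ' 0
  have h2 := aleph_succ' 1
  have hne : Nonempty (Om 1) := hW.nonempty
  obtain ⟨R, e, hR, hsys⟩ := exists_initSys (Ω := Om 2) h𝓡
  have hthin : ∀ j : Om 1, #(Traces (Set.range R) (Set.Iio j)) ≤
      Order.succ (ℵ_ ((0 : ℕ) : Ordinal.{0})) := by
    intro j
    rw [← h1]
    refine (mk_le_mk_of_subset (Traces.mono ?_ _)).trans (h𝓡.few (Set.Iio j) ?_)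
    · rintro _ ⟨β, rfl⟩
      exact hR β
    · rw [← Cardinal.le_aleph0_iff_set_countable, ← h0]
      exact hW.small j
  obtain ⟨P, hP⟩ := exists_label hW hsys hthin
  have hinf : ℵ₀ ≤ ℵ_ ((1 : ℕ) : Ordinal.{0}) := aleph0_le_aleph _
  have hcW : #(Om 1) ≤ ℵ_ ((1 : ℕ) : Ordinal.{0}) := (mk_ord_toType _).le
  have hQ : #(Om 1 × Om 1 × Om 1 × Om 1) ≤ ℵ_ ((1 : ℕ) : Ordinal.{0}) := by
    simp only [mk_prod, lift_id]
    exact mul_le_of_le hinf hcW (mul_le_of_le hinf hcW (mul_le_of_le hinf hcW hcW))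
  have hlev := fun a => Node.level_card (e := e) hinf hQ hsys.inj P hP a
  refine ⟨Node e, inferInstance, ?_, ?_⟩
  · refine node_isTree (Ordinal.ToType.mk.symm) fun a => ?_
    refine (hlev a).trans_lt ?_
    rw [h2]
    exact Order.lt_succ _
  · have h3 : Nonempty (List (Om 1) ↪ Om 1) := by
      rw [← Cardinal.le_def, show #(Om 1) = ℵ_ ((1 : ℕ) : Ordinal.{0}) from mk_ord_toType _]
      exact list_card_le hinf hcW
    obtain ⟨g⟩ := h3
    exact ⟨fun t => g (t.fn t.lv), fun s t hst heq => Node.last_ne hsys.inj hst (g.injective heq)⟩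

/-- a special tree refutes the tree property -/
theorem not_treeProperty (n : ℕ) (h : SpecialTree n) :
    ¬ TreeProperty (ℵ_ ((n + 1 : ℕ) : Ordinal.{0})) := by
  intro hTP
  obtain ⟨T, inst, hT, f, hf⟩ := h
  obtain ⟨b, hb, hlev⟩ := hTP T hT
  choose t ht hht using hlev
  have hinj : Function.Injective (fun α : Set.Iio (ℵ_ ((n + 1 : ℕ) : Ordinal.{0})).ord =>
      f (t α.1 α.2)) := by
    intro α β hαβ
    by_contra hne
    have hne' : t α.1 α.2 ≠ t β.1 β.2 := by
      intro h1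
      refine hne (Subtype.ext (iso_unique ?_))
      obtain ⟨g1⟩ := hht α.1 α.2
      obtain ⟨g2⟩ := hht β.1 β.2
      rw [h1] at g1
      exact ⟨g1.symm.trans g2⟩
    rcases hb (ht α.1 α.2) (ht β.1 β.2) hne' with h1 | h1
    · exact hf _ _ (lt_of_le_of_ne h1 hne') hαβ
    · exact hf _ _ (lt_of_le_of_ne h1 hne'.symm) hαβ.symm
  have h1 := Cardinal.lift_mk_le_lift_mk_of_injective hinj
  rw [Cardinal.mk_Iio_ordinal, card_ord, Cardinal.lift_id'.{0, 1},
    show #(Om n) = ℵ_ (n : Ordinal.{0}) from mk_ord_toType _, Cardinal.lift_le] at h1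
  rw [aleph_succ'] at h1
  exact absurd h1 (not_le.2 (Order.lt_succ _))

/-- all well-orders form a thin family when there are few reals -/
theorem thin_of_continuum (n : ℕ) (h : Cardinal.continuum ≤ ℵ_ (n : Ordinal.{0})) : Thin n := by
  refine ⟨{R | IsWellOrder (Om n) R}, fun R hR => hR, ?_, ?_⟩
  · intro b
    have h1 : #(Om n) = #(Set.Iio b ⊕ Om n) := by
      rw [mk_sum, lift_id, lift_id, show #(Om n) = ℵ_ (n : Ordinal.{0}) from mk_ord_toType _]
      exact (add_eq_right (aleph0_le_aleph _) ((succType n).small b)).symm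
    obtain ⟨g⟩ := Cardinal.eq.1 h1
    let S : (Set.Iio b ⊕ Om n) → (Set.Iio b ⊕ Om n) → Prop :=
      Sum.Lex (fun x y : Set.Iio b => x.1 < y.1) (· < ·)
    have hlt : IsWellOrder (Set.Iio b) (fun x y => x.1 < y.1) :=
      (inferInstance : IsWellOrder (Set.Iio b) (· < ·))
    have hS : IsWellOrder _ S := inferInstance
    let rg : (fun x y : Om n => S (g x) (g y)) ↪r S := ⟨g.toEmbedding, Iff.rfl⟩
    refine ⟨fun x y => S (g x) (g y), rg.isWellOrder, ⟨⟨⟨fun x => g.symm (Sum.inl x), ?_⟩, ?_⟩⟩⟩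
    · intro x y hxy
      exact Sum.inl_injective (g.symm.injective hxy)
    · intro x y
      simp only [Function.Embedding.coeFn_mk, Equiv.apply_symm_apply]
      exact Sum.lex_inl_inl
  · intro s hs
    have h1 : #(Traces {R | IsWellOrder (Om n) R} s) ≤ Cardinal.continuum := by
      have : Countable s := hs
      refine le_trans (mk_le_of_injective
        (f := fun t => ({p : s × s | t.1 p.1.1 p.2.1} : Set (s × s))) ?_) ?_
      · intro t t' htt
        refine Subtype.ext ?_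
        obtain ⟨R, hR, hRt⟩ := t.2
        obtain ⟨R', hR', hRt'⟩ := t'.2
        funext a b
        refine propext ?_
        by_cases hab : a ∈ s ∧ b ∈ s
        · have h2 : (⟨⟨a, hab.1⟩, ⟨b, hab.2⟩⟩ : s × s) ∈ {p : s × s | t.1 p.1.1 p.2.1} ↔
              (⟨⟨a, hab.1⟩, ⟨b, hab.2⟩⟩ : s × s) ∈ {p : s × s | t'.1 p.1.1 p.2.1} := by
            rw [show {p : s × s | t.1 p.1.1 p.2.1} = {p : s × s | t'.1 p.1.1 p.2.1} from htt]
          exact h2
        · rw [hRt, hRt']
          constructor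
          · intro h3
            exact absurd ⟨h3.1, h3.2.1⟩ hab
          · intro h3
            exact absurd ⟨h3.1, h3.2.1⟩ hab
      · rw [mk_set]
        have h4 : #(s × s) ≤ ℵ₀ := mk_le_aleph0
        calc (2 : Cardinal) ^ #(s × s) ≤ 2 ^ ℵ₀ := power_le_power_left two_ne_zero h4
          _ = Cardinal.continuum := two_power_aleph0
    exact h1.trans h

end Pool.Agent.Helper155_ST
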