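import Pool.Agent.Helper155_ST.Walk

/-!
# The tree of walks
-/

set_option autoImplicit false

namespace Pool.Agent.Helper155_ST

open Cardinal Set

section Node

variable {W Ω : Type} [LinearOrder W] [LinearOrder Ω] [WellFoundedLT W] [WellFoundedLT Ω]

/-- the nodes of the tree: restrictions of the walk functions to closed initial segments -/
structure Node (e : Ω → Ω → W) where
  /-- the level of the node -/
  lv : Ω
  /-- the function of the node -/
  fn : Ω → List W
  ex : ∃ β, lv ≤ β ∧ ∀ x ≤ lv, fn x = rho e β x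
  nil : ∀ x, ¬ x ≤ lv → fn x = []

variable {e : Ω → Ω → W}

theorem Node.ext' {p q : Node e} (h : p.lv = q.lv) (h' : ∀ x ≤ p.lv, p.fn x = q.fn x) : p = q := by
  obtain ⟨a, f, hex, hnil⟩ := p
  obtain ⟨b, g, hex', hnil'⟩ := q
  have h1 : a = b := h
  subst h1
  have h2 : f = g := by
    funext x
    by_cases hx : x ≤ a
    · exact h' x hx
    · rw [hnil x hx, hnil' x hx]
  subst h2
  rfl

instance : PartialOrder (Node e) where
  le p q := p.lv ≤ q.lv ∧ ∀ x ≤ p.lv, p.fn x = q.fn x
  le_refl p := ⟨le_rfl, fun _ _ => rfl⟩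
  le_trans p q r h h' := ⟨h.1.trans h'.1, fun x hx => (h.2 x hx).trans (h'.2 x (hx.trans h.1))⟩
  le_antisymm p q h h' := Node.ext' (le_antisymm h.1 h'.1) h.2

theorem Node.le_def {p q : Node e} : p ≤ q ↔ p.lv ≤ q.lv ∧ ∀ x ≤ p.lv, p.fn x = q.fn x := Iff.rfl

theorem Node.lt_def {p q : Node e} : p < q ↔ p.lv < q.lv ∧ ∀ x ≤ p.lv, p.fn x = q.fn x := by
  rw [lt_iff_le_and_ne, Node.le_def]
  constructor
  · rintro ⟨⟨h1, h2⟩, h3⟩
    refine ⟨lt_of_le_of_ne h1 fun h4 => h3 (Node.ext' h4 h2), h2⟩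
  · rintro ⟨h1, h2⟩
    exact ⟨⟨h1.le, h2⟩, fun h3 => h1.ne (by rw [h3])⟩

open Classical in
/-- the restriction of a node to a smaller level -/
noncomputable def Node.res (q : Node e) (a : Ω) (ha : a ≤ q.lv) : Node e where
  lv := a
  fn := fun x => if x ≤ a then q.fn x else []
  ex := by
    obtain ⟨β, h1, h2⟩ := q.ex
    refine ⟨β, ha.trans h1, fun x hx => ?_⟩
    rw [if_pos hx]
    exact h2 x (hx.trans ha)
  nil := fun x hx => if_neg hx

theorem Node.res_fn (q : Node e) (a : Ω) (ha : a ≤ q.lv) {x : Ω} (hx : x ≤ a) :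
    (q.res a ha).fn x = q.fn x := if_pos hx

/-- the predecessors of a node are indexed by the predecessors of its level -/
noncomputable def Node.iso (q : Node e) : Set.Iio q ≃o Set.Iio q.lv where
  toFun p := ⟨p.1.lv, (Node.lt_def.1 p.2).1⟩
  invFun a := ⟨q.res a.1 (le_of_lt a.2), Node.lt_def.2 ⟨a.2, fun _ hx => q.res_fn _ _ hx⟩⟩
  left_inv p := by
    refine Subtype.ext (Node.ext' rfl ?_)
    intro x hx
    have h1 : x ≤ p.1.lv := hx
    exact (q.res_fn p.1.lv (Node.lt_def.1 p.2).1.le h1).trans ((Node.lt_def.1 p.2).2 x h1).symm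
  right_inv a := rfl
  map_rel_iff' := by
    intro p p'
    constructor
    · intro h
      have h1 : p.1.lv ≤ p'.1.lv := h
      refine Node.le_def.2 ⟨h1, fun x hx => ?_⟩
      rw [(Node.lt_def.1 p.2).2 x hx, (Node.lt_def.1 p'.2).2 x (hx.trans h1)]
    · intro h
      exact (Node.le_def.1 h).1

/-- the nodes on a branch are told apart by their last value -/
theorem Node.last_ne (he : ∀ β, Set.InjOn (e β) (Set.Iio β)) {p q : Node e} (h : p < q) :
    p.fn p.lv ≠ q.fn q.lv := by
  obtain ⟨h1, h2⟩ := Node.lt_def.1 h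
  obtain ⟨β, h3, h4⟩ := q.ex
  rw [h2 _ le_rfl, h4 _ h1.le, h4 _ le_rfl]
  intro h5
  exact h1.ne (rho_inj he β _ _ (h1.le.trans h3) h3 h5)

/-- the canonical node of level `a` -/
theorem Node.exists_level (a : Ω) : ∃ p : Node e, p.lv = a := by
  classical
  exact ⟨⟨a, fun x => if x ≤ a then rho e a x else [], ⟨a, le_rfl, fun x hx => if_pos hx⟩,
    fun x hx => if_neg hx⟩, rfl⟩

theorem Node.level_card {Q : Type} {κ : Cardinal.{0}} (hκ : ℵ₀ ≤ κ) (hQ : #Q ≤ κ)
    (he : ∀ β, Set.InjOn (e β) (Set.Iio β)) (P : Ω → Ω → Q)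
    (hP : ∀ α β β', α < β → α < β' → P β α = P β' α →
      e β (nx e β α) = e β' (nx e β' α) ∧
      ∀ a < α, (e β a < e β (nx e β α) → e β' a = e β a) ∧
        (e β' a < e β (nx e β α) → e β' a = e β a)) (a : Ω) :
    #{p : Node e | p.lv = a} ≤ κ := by
  have h1 : #(List Q) ≤ κ := by
    rcases isEmpty_or_nonempty Q with h | h
    · have : Subsingleton (List Q) := by
        refine ⟨fun l l' => ?_⟩
        cases l with
        | nil =>
          cases l' with
          | nil => rfl
          | cons q _ => exact (h.false q).elim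
        | cons q _ => exact (h.false q).elim
      exact (Cardinal.le_one_iff_subsingleton.2 this).trans (one_le_aleph0.trans hκ)
    · exact (Cardinal.mk_list_le_max Q).trans (max_le hκ hQ)
  refine le_trans ?_ h1
  refine mk_le_of_injective (f := fun p => along e P p.1.ex.choose a) ?_
  rintro ⟨p, hp⟩ ⟨q, hq⟩ h
  have hp' : p.lv = a := hp
  have hq' : q.lv = a := hq
  obtain ⟨p1, p2⟩ := p.ex.choose_spec
  obtain ⟨q1, q2⟩ := q.ex.choose_spec
  have h2 : along e P p.ex.choose a = along e P q.ex.choose a := h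
  have h3 := along_determines he P hP p.ex.choose q.ex.choose a (by rw [← hp']; exact p1)
    (by rw [← hq']; exact q1) h2
  refine Subtype.ext (Node.ext' (hp'.trans hq'.symm) fun x hx => ?_)
  rw [p2 x hx, q2 x (by rw [hq', ← hp']; exact hx)]
  exact h3 x (by rw [← hp']; exact hx)

end Node

end Pool.Agent.Helper155_ST
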