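import Pool.Agent.Helper155_ST.Bound

/-!
# Walks along well-orders and the special tree they give
-/

set_option autoImplicit false

namespace Pool.Agent.Helper155_ST

open Cardinal Set

section Walk

variable {W Ω : Type} [LinearOrder W] [LinearOrder Ω] [WellFoundedLT W] [WellFoundedLT Ω]

theorem exists_next (e : Ω → Ω → W) (α β : Ω) (h : α < β) :
    ∃ γ, α ≤ γ ∧ γ < β ∧ ∀ a, α ≤ a → a < β → e β γ ≤ e β a := by
  have hne : ((e β) '' {a | α ≤ a ∧ a < β}).Nonempty := ⟨_, α, ⟨le_rfl, h⟩, rfl⟩
  have hm := (wellFounded_lt (α := W)).min_mem _ hne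
  obtain ⟨γ, hγ, h3⟩ := hm
  refine ⟨γ, hγ.1, hγ.2, fun a ha hb => ?_⟩
  rw [h3]
  exact le_of_not_gt ((wellFounded_lt (α := W)).not_lt_min
    (s := (e β) '' {a | α ≤ a ∧ a < β}) ⟨a, ⟨ha, hb⟩, rfl⟩)

open Classical in
/-- the next point of the walk from `β` to `α` -/
noncomputable def nx (e : Ω → Ω → W) (β α : Ω) : Ω :=
  if h : α < β then (exists_next e α β h).choose else α

theorem nx_spec (e : Ω → Ω → W) {α β : Ω} (h : α < β) :
    α ≤ nx e β α ∧ nx e β α < β ∧ ∀ a, α ≤ a → a < β → e β (nx e β α) ≤ e β a := by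
  have h1 : nx e β α = (exists_next e α β h).choose := dif_pos h
  rw [h1]
  exact (exists_next e α β h).choose_spec

theorem nx_unique {e : Ω → Ω → W} {α β b : Ω} (he : Set.InjOn (e β) (Set.Iio β)) (h : α < β)
    (h1 : α ≤ b) (h2 : b < β) (h3 : ∀ a, α ≤ a → a < β → e β b ≤ e β a) : b = nx e β α := by
  obtain ⟨g1, g2, g3⟩ := nx_spec e h
  exact he h2 g2 (le_antisymm (h3 _ g1 g2) (g3 _ h1 h2))

open Classical in
/-- the list of labels along the walk -/
noncomputable def along {Q : Type} (e : Ω → Ω → W) (P : Ω → Ω → Q) : Ω → Ω → List Q :=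
  (wellFounded_lt (α := Ω)).fix fun β F α =>
    if h : α < β then P β α :: F (nx e β α) (nx_spec e h).2.1 α else []

theorem along_lt {Q : Type} (e : Ω → Ω → W) (P : Ω → Ω → Q) {α β : Ω} (h : α < β) :
    along e P β α = P β α :: along e P (nx e β α) α := by
  unfold along
  rw [WellFounded.fix_eq]
  rw [dif_pos h]

theorem along_ge {Q : Type} (e : Ω → Ω → W) (P : Ω → Ω → Q) {α β : Ω} (h : ¬ α < β) :
    along e P β α = [] := by
  unfold along
  rw [WellFounded.fix_eq]
  rw [dif_neg h]

/-- the full code of the walk -/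
noncomputable def rho (e : Ω → Ω → W) : Ω → Ω → List W := along e fun β α => e β (nx e β α)

theorem rho_inj {e : Ω → Ω → W} (he : ∀ β, Set.InjOn (e β) (Set.Iio β)) (β : Ω) :
    ∀ α α', α ≤ β → α' ≤ β → rho e β α = rho e β α' → α = α' := by
  induction β using (wellFounded_lt (α := Ω)).induction with
  | _ β ih =>
    intro α α' h h' heq
    unfold rho at heq
    by_cases h1 : α < β
    · by_cases h2 : α' < β
      · rw [along_lt e _ h1, along_lt e _ h2] at heq
        have e1 := (List.cons.inj heq).1
        have e2 := (List.cons.inj heq).2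
        have e3 : nx e β α = nx e β α' := he β (nx_spec e h1).2.1 (nx_spec e h2).2.1 e1
        rw [← e3] at e2
        refine ih _ (nx_spec e h1).2.1 α α' (nx_spec e h1).1 ?_ e2
        rw [e3]
        exact (nx_spec e h2).1
      · rw [along_lt e _ h1, along_ge e _ h2] at heq
        exact absurd heq (List.cons_ne_nil _ _)
    · by_cases h2 : α' < β
      · rw [along_ge e _ h1, along_lt e _ h2] at heq
        exact absurd heq.symm (List.cons_ne_nil _ _)
      · rw [le_antisymm h (not_lt.1 h1), le_antisymm h' (not_lt.1 h2)]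

/-- a coding of the walk from which the walks to all smaller points can be recovered -/
theorem along_determines {Q : Type} {e : Ω → Ω → W} (he : ∀ β, Set.InjOn (e β) (Set.Iio β))
    (P : Ω → Ω → Q)
    (hP : ∀ α β β', α < β → α < β' → P β α = P β' α →
      e β (nx e β α) = e β' (nx e β' α) ∧
      ∀ a < α, (e β a < e β (nx e β α) → e β' a = e β a) ∧
        (e β' a < e β (nx e β α) → e β' a = e β a)) (β : Ω) :
    ∀ β' α, α ≤ β → α ≤ β' → along e P β α = along e P β' α →
      ∀ x ≤ α, rho e β x = rho e β' x := by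
  induction β using (wellFounded_lt (α := Ω)).induction with
  | _ β ih =>
    intro β' α h h' heq x hx
    by_cases h1 : α < β
    · by_cases h2 : α < β'
      · rw [along_lt e _ h1, along_lt e _ h2] at heq
        have e1 := (List.cons.inj heq).1
        have e2 := (List.cons.inj heq).2
        obtain ⟨g1, g2, g3⟩ := nx_spec e h1
        obtain ⟨g1', g2', g3'⟩ := nx_spec e h2
        obtain ⟨k1, k2⟩ := hP α β β' h1 h2 e1
        have hxβ : x < β := hx.trans_lt h1
        have hxβ' : x < β' := hx.trans_lt h2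
        have hrec := ih _ g2 _ _ g1 g1' e2 x hx
        have r1 : rho e β x = e β (nx e β x) :: rho e (nx e β x) x := along_lt e _ hxβ
        have r2 : rho e β' x = e β' (nx e β' x) :: rho e (nx e β' x) x := along_lt e _ hxβ'
        rw [r1, r2]
        obtain ⟨s1, s2, s3⟩ := nx_spec e hxβ
        by_cases hc : nx e β x < α
        · by_cases hc2 : e β (nx e β x) < e β (nx e β α)
          · -- the next point is below `α`
            have t1 := (k2 _ hc).1 hc2
            have t2 : nx e β x = nx e β' x := by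
              refine nx_unique (he β') hxβ' s1 (hc.trans h2) ?_
              intro a ha ha'
              rw [t1]
              by_cases haα : a < α
              · by_contra hlt
                rw [not_le] at hlt
                have t3 := (k2 a haα).2 (hlt.trans hc2)
                rw [t3] at hlt
                exact absurd (s3 a ha (haα.trans h1)) (not_le.2 hlt)
              · refine hc2.le.trans ?_
                rw [k1]
                exact g3' a (not_lt.1 haα) ha'
            rw [← t2, t1]
          · exfalso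
            have t4 := s3 _ (hx.trans g1) g2
            have t5 : e β (nx e β x) = e β (nx e β α) := le_antisymm t4 (not_lt.1 hc2)
            have t6 := he β s2 g2 t5
            rw [t6] at hc
            exact absurd g1 (not_le.2 hc)
        · -- the next point is the next point to `α`
          have t1 : nx e β x = nx e β α :=
            nx_unique (he β) h1 (not_lt.1 hc) s2 fun a ha ha' => s3 a (hx.trans ha) ha'
          have t2 : nx e β' α = nx e β' x := by
            refine nx_unique (he β') hxβ' (hx.trans g1') g2' ?_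
            intro a ha ha'
            by_cases haα : a < α
            · by_contra hlt
              rw [not_le, ← k1] at hlt
              have t3 := (k2 a haα).2 hlt
              rw [t3, ← t1] at hlt
              exact absurd (s3 a ha (haα.trans h1)) (not_le.2 hlt)
            · exact g3' a (not_lt.1 haα) ha'
          rw [t1, ← t2, ← k1, hrec]
      · rw [along_lt e _ h1, along_ge e _ h2] at heq
        exact absurd heq (List.cons_ne_nil _ _)
    · by_cases h2 : α < β'
      · rw [along_ge e _ h1, along_lt e _ h2] at heq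
        exact absurd heq.symm (List.cons_ne_nil _ _)
      · rw [le_antisymm (not_lt.1 h1) h, le_antisymm (not_lt.1 h2) h']

end Walk

section Rigid

variable {W Ω : Type} [LinearOrder W] [LinearOrder Ω] [WellFoundedLT Ω]

/-- `e β` is an isomorphism of the initial segment of `β` onto an initial segment of `R β`. -/
structure InitSys (R : Ω → W → W → Prop) (e : Ω → Ω → W) : Prop where
  wo : ∀ β, IsWellOrder W (R β)
  iff : ∀ β, ∀ a < β, ∀ b < β, R β (e β a) (e β b) ↔ a < b
  init : ∀ β, ∀ b < β, ∀ w, R β w (e β b) → ∃ a < b, e β a = w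

theorem InitSys.inj {R : Ω → W → W → Prop} {e : Ω → Ω → W} (h : InitSys R e) (β : Ω) :
    Set.InjOn (e β) (Set.Iio β) := by
  have := h.wo β
  intro a ha b hb hab
  by_contra hne
  rcases lt_or_gt_of_ne hne with h1 | h1
  · have h2 := (h.iff β a ha b hb).2 h1
    rw [hab] at h2
    exact irrefl_of (R β) _ h2
  · have h2 := (h.iff β b hb a ha).2 h1
    rw [hab] at h2
    exact irrefl_of (R β) _ h2

/-- the local rigidity of the system -/
theorem InitSys.rigid {R : Ω → W → W → Prop} {e : Ω → Ω → W} (h : InitSys R e) {α β β' : Ω}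
    {j : W} (hβ : α < β) (hβ' : α < β') (h1 : e β α < j)
    (h2 : ∀ a < α, e α a < j ↔ e β a < j) (h2' : ∀ a < α, e α a < j ↔ e β' a < j)
    (ht : ∀ x < j, ∀ y < j, R β x y ↔ R β' x y) (hw : e β α = e β' α) :
    ∀ a < α, e α a < j → e β' a = e β a := by
  have hwo := h.wo β
  have hwo' := h.wo β'
  intro a
  induction a using (wellFounded_lt (α := Ω)).induction with
  | _ a ih =>
    intro ha haj
    by_contra hne
    have g1 : e β a < j := (h2 a ha).1 haj
    have g2 : e β' a < j := (h2' a ha).1 haj
    have g3 : R β (e β a) (e β α) := (h.iff β a (ha.trans hβ) α hβ).2 ha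
    rw [ht _ g1 _ h1, hw] at g3
    obtain ⟨b, hb, hbe⟩ := h.init β' α hβ' _ g3
    have g4 : e α b < j := (h2' b hb).2 (by rw [hbe]; exact g1)
    rcases lt_trichotomy b a with hlt | heq | hgt
    · have g5 := ih b hlt hb g4
      rw [hbe] at g5
      have g6 := h.inj β (ha.trans hβ) (hb.trans hβ) g5
      exact absurd hlt (by rw [g6]; exact lt_irrefl _)
    · rw [heq] at hbe
      exact hne hbe
    · have g5 : R β' (e β' a) (e β' b) := (h.iff β' a (ha.trans hβ') b (hb.trans hβ')).2 hgt
      rw [hbe, ← ht _ g2 _ g1] at g5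
      obtain ⟨c, hc, hce⟩ := h.init β a (ha.trans hβ) _ g5
      have g6 : e α c < j := (h2 c (hc.trans ha)).2 (by rw [hce]; exact g2)
      have g7 := ih c hc (hc.trans ha) g6
      rw [hce] at g7
      have g8 := h.inj β' ((hc.trans ha).trans hβ') (ha.trans hβ') g7
      exact absurd hc (by rw [g8]; exact lt_irrefl _)

end Rigid

section Label

variable {ν : Cardinal.{0}} {W Ω : Type} [LinearOrder W] [LinearOrder Ω] [WellFoundedLT W]
  [WellFoundedLT Ω]

theorem exists_label (hW : SuccType ν W) {R : Ω → W → W → Prop} {e : Ω → Ω → W}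
    (h : InitSys R e) (hthin : ∀ j : W, #(Traces (Set.range R) (Set.Iio j)) ≤ Order.succ ν) :
    ∃ P : Ω → Ω → W × W × W × W, ∀ α β β', α < β → α < β' → P β α = P β' α →
      e β (nx e β α) = e β' (nx e β' α) ∧
      ∀ a < α, (e β a < e β (nx e β α) → e β' a = e β a) ∧
        (e β' a < e β (nx e β α) → e β' a = e β a) := by
  have hι : ∀ j : W, ∃ ι : (W → W → Prop) → W, ∀ β β', ι (tr (Set.Iio j) (R β)) =
      ι (tr (Set.Iio j) (R β')) → tr (Set.Iio j) (R β) = tr (Set.Iio j) (R β') := by
    intro j
    classical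
    have h1 : Nonempty (Traces (Set.range R) (Set.Iio j) ↪ W) := by
      rw [← Cardinal.le_def, hW.card]
      exact hthin j
    obtain ⟨f⟩ := h1
    have hmem : ∀ β, tr (Set.Iio j) (R β) ∈ Traces (Set.range R) (Set.Iio j) :=
      fun β => ⟨R β, ⟨β, rfl⟩, rfl⟩
    refine ⟨fun t => if ht : t ∈ Traces (Set.range R) (Set.Iio j) then f ⟨t, ht⟩ else j, ?_⟩
    intro β β' hββ
    simp only [hmem, dif_pos] at hββ
    exact congrArg (fun z : Traces (Set.range R) (Set.Iio j) => z.1) (f.injective hββ)
  choose ι hι using hι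
  have hj : ∀ β α : Ω, ∃ j : W, α < β → e β (nx e β α) < j ∧ e β α < j ∧
      ∀ a < α, e α a < j ↔ e β a < j := by
    intro β α
    by_cases hβ : α < β
    · obtain ⟨φ, hφ⟩ := exists_pair_closed (o := e) (fun β => h.inj β) hβ
      obtain ⟨j, hj1, hj2⟩ := hW.exists_closed φ (e β (nx e β α))
      obtain ⟨h3, h4⟩ := hφ j ⟨⟨_, hj1⟩, hj2⟩
      exact ⟨j, fun _ => ⟨hj1, h3, h4⟩⟩
    · exact ⟨e β α, fun h' => absurd h' hβ⟩
  choose j hj using hj
  refine ⟨fun β α => (e β (nx e β α), j β α, ι (j β α) (tr (Set.Iio (j β α)) (R β)), e β α), ?_⟩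
  intro α β β' hβ hβ' heq
  simp only [Prod.mk.injEq] at heq
  obtain ⟨e1, e2, e3, e4⟩ := heq
  obtain ⟨j1, j2, j3⟩ := hj β α hβ
  obtain ⟨j1', j2', j3'⟩ := hj β' α hβ'
  rw [← e2] at e3 j1' j2' j3'
  have e5 := hι _ _ _ e3
  have ht : ∀ x < j β α, ∀ y < j β α, R β x y ↔ R β' x y := by
    intro x hx y hy
    have h1 : tr (Set.Iio (j β α)) (R β) x y ↔ tr (Set.Iio (j β α)) (R β') x y := by rw [e5]
    constructor
    · intro h2
      exact (h1.1 ⟨hx, hy, h2⟩).2.2
    · intro h2
      exact (h1.2 ⟨hx, hy, h2⟩).2.2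
  have hr := h.rigid hβ hβ' j2 j3 j3' ht e4
  refine ⟨e1, fun a ha => ⟨fun hlt => ?_, fun hlt => ?_⟩⟩
  · exact hr a ha ((j3 a ha).2 (hlt.trans j1))
  · exact hr a ha ((j3' a ha).2 (hlt.trans j1))

end Label

end Pool.Agent.Helper155_ST
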